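import Pool.Agent.Helper18.SF.Two

set_option autoImplicit false

/-! Correlations are controlled by the energy increment. -/

namespace Pool.Agent.Helper18.SF

open Finset

variable {V : Type} [Fintype V] [DecidableEq V]

omit [Fintype V] in
theorem corr_refine (A : V → V → ℝ) (Z : Finset V) (u : V) {z z' : V}
    (h : pat A (insert u Z) z = pat A (insert u Z) z') : pat A Z z = pat A Z z' := by
  ext x
  have h1 := Finset.ext_iff.1 h x
  simp only [pat, mem_filter, mem_insert] at h1 ⊢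
  constructor
  · rintro ⟨a, b⟩
    exact ⟨a, (h1.1 ⟨Or.inr a, b⟩).2⟩
  · rintro ⟨a, b⟩
    exact ⟨a, (h1.2 ⟨Or.inr a, b⟩).2⟩

omit [Fintype V] in
theorem corr_meas (A : V → V → ℝ) (h01 : ∀ x y, A x y = 0 ∨ A x y = 1) (Z : Finset V) (u : V) {z z' : V}
    (h : pat A (insert u Z) z = pat A (insert u Z) z') : A u z = A u z' := by
  have h1 := Finset.ext_iff.1 h u
  simp only [pat, mem_filter, mem_insert, true_or, true_and] at h1
  rcases h01 u z with a | a <;> rcases h01 u z' with b | b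
  · rw [a, b]
  · have := h1.2 b
    rw [a] at this
    norm_num at this
  · have := h1.1 a
    rw [b] at this
    norm_num at this
  · rw [a, b]

theorem corr (A : V → V → ℝ) (h01 : ∀ x y, A x y = 0 ∨ A x y = 1) (Z : Finset V) (T : Finset V)
    (hT : ∀ z z', pat A Z z = pat A Z z' → (z ∈ T ↔ z' ∈ T)) (u : V) :
    ∑ v, (∑ z ∈ T, (A v z - ce (pat A Z) (A v) z) * (A u z - ce (pat A Z) (A u) z)) ^ 2 ≤
      (T.card : ℝ) * (q A (insert u Z) - q A Z) := by
  have e : q A (insert u Z) - q A Z =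
      ∑ v, ∑ z, (ce (pat A (insert u Z)) (A v) z - ce (pat A Z) (A v) z) ^ 2 := by
    unfold q
    rw [← sum_sub_distrib]
    exact sum_congr rfl fun v _ => (pyth _ _ (fun z z' h => corr_refine A Z u h) (A v)).symm
  rw [e, mul_sum]
  refine sum_le_sum fun v _ => ?_
  have h1 : ∀ k : V → ℝ, (∀ z z', pat A (insert u Z) z = pat A (insert u Z) z' → k z = k z') →
      ∑ z ∈ T, A v z * k z = ∑ z ∈ T, ce (pat A (insert u Z)) (A v) z * k z := by
    intro k hk
    exact (sum_ce_mul_on _ _ _ hk T fun z z' h => hT z z' (corr_refine A Z u h)).symm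
  have h2 : ∑ z ∈ T, (A v z - ce (pat A Z) (A v) z) * (A u z - ce (pat A Z) (A u) z) =
      ∑ z ∈ T, (ce (pat A (insert u Z)) (A v) z - ce (pat A Z) (A v) z) *
        (A u z - ce (pat A Z) (A u) z) := by
    simp only [sub_mul, sum_sub_distrib]
    rw [h1 (fun z => A u z - ce (pat A Z) (A u) z) (fun z z' h => by
      rw [corr_meas A h01 Z u h, ce_congr (corr_refine A Z u h)])]
  rw [h2]
  have h3 := sum_mul_sq_le_sq_mul_sq T (fun z => ce (pat A (insert u Z)) (A v) z - ce (pat A Z) (A v) z)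
    (fun z => A u z - ce (pat A Z) (A u) z)
  refine h3.trans ?_
  rw [mul_comm]
  have hn : ∀ z, 0 ≤ A u z := fun z => by rcases h01 u z with h | h <;> rw [h] <;> norm_num
  have hn1 : ∀ z, A u z ≤ 1 := fun z => by rcases h01 u z with h | h <;> rw [h] <;> norm_num
  have h4 : ∑ z ∈ T, (A u z - ce (pat A Z) (A u) z) ^ 2 ≤ (T.card : ℝ) := by
    have : ∑ z ∈ T, (A u z - ce (pat A Z) (A u) z) ^ 2 ≤ ∑ _z ∈ T, (1 : ℝ) := by
      refine sum_le_sum fun z _ => ?_
      have a1 := ce_nonneg (pat A Z) (A u) hn z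
      have a2 := ce_le_one (pat A Z) (A u) hn1 z
      have a3 := hn z
      have a4 := hn1 z
      rw [sq_le_one_iff_abs_le_one, abs_le]
      constructor <;> linarith
    simpa using this
  have h5 : ∑ z ∈ T, (ce (pat A (insert u Z)) (A v) z - ce (pat A Z) (A v) z) ^ 2 ≤
      ∑ z, (ce (pat A (insert u Z)) (A v) z - ce (pat A Z) (A v) z) ^ 2 :=
    sum_le_sum_of_subset_of_nonneg (subset_univ T) fun z _ _ => sq_nonneg _
  exact mul_le_mul h4 h5 (sum_nonneg fun z _ => sq_nonneg _) (Nat.cast_nonneg _)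

/-- Semi-expanded form. -/
theorem corr_semi (A : V → V → ℝ) (Z : Finset V) (T : Finset V)
    (hT : ∀ z z', pat A Z z = pat A Z z' → (z ∈ T ↔ z' ∈ T)) (u v : V) :
    ∑ z ∈ T, (A v z - ce (pat A Z) (A v) z) * (A u z - ce (pat A Z) (A u) z) =
      ∑ z ∈ T, A v z * (A u z - ce (pat A Z) (A u) z) := by
  have h1 := sum_ce_mul_on (pat A Z) (A u) (ce (pat A Z) (A v)) (fun z z' h => ce_congr h) T hT
  have h2 : ∑ z ∈ T, (A v z - ce (pat A Z) (A v) z) * (A u z - ce (pat A Z) (A u) z) =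
      ∑ z ∈ T, A v z * (A u z - ce (pat A Z) (A u) z) -
        (∑ z ∈ T, A u z * ce (pat A Z) (A v) z - ∑ z ∈ T, ce (pat A Z) (A u) z * ce (pat A Z) (A v) z) := by
    rw [← sum_sub_distrib, ← sum_sub_distrib]
    exact sum_congr rfl fun z _ => by ring
  rw [h2, h1, sub_self, sub_zero]

/-- Expanded form of the inner sum. -/
theorem corr_expand (A : V → V → ℝ) (Z : Finset V) (T : Finset V)
    (hT : ∀ z z', pat A Z z = pat A Z z' → (z ∈ T ↔ z' ∈ T)) (u v : V) :
    ∑ z ∈ T, (A v z - ce (pat A Z) (A v) z) * (A u z - ce (pat A Z) (A u) z) =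
      ∑ z ∈ T, (A v z * A u z - ce (pat A Z) (A v) z * ce (pat A Z) (A u) z) := by
  rw [corr_semi A Z T hT u v]
  have h1 := sum_ce_mul_on (pat A Z) (A v) (ce (pat A Z) (A u)) (fun z z' h => ce_congr h) T hT
  simp only [mul_sub, sum_sub_distrib]
  rw [h1]

end Pool.Agent.Helper18.SF
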