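import Pool.Agent.Helper18.SF.CE

set_option autoImplicit false

/-! The combinatorial inequalities of a system. -/

namespace Pool.Agent.Helper18.SF

open Finset

variable {V : Type} [Fintype V] [DecidableEq V]

namespace Sys

variable (S : Sys V)

omit [Fintype V] [DecidableEq V] in
theorem A_nonneg (x y : V) : 0 ≤ S.A x y := by
  rcases S.h01 x y with h | h <;> rw [h] <;> norm_num

omit [Fintype V] [DecidableEq V] in
theorem A_le_one (x y : V) : S.A x y ≤ 1 := by
  rcases S.h01 x y with h | h <;> rw [h] <;> norm_num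

omit [Fintype V] [DecidableEq V] in
theorem sum_A (T : Finset V) (x : V) (g : V → ℝ) :
    ∑ y ∈ T, S.A x y * g y = ∑ y ∈ T with S.A x y = 1, g y := by
  classical
  rw [Finset.sum_filter]
  refine Finset.sum_congr rfl fun y _ => ?_
  rcases S.h01 x y with h | h
  · rw [h]; simp
  · rw [h]; simp

omit [Fintype V] [DecidableEq V] in
theorem f3 {x y : V} (h : S.A x y = 1) : S.A y (S.f x y) = 1 := by
  have h1 : S.A y x = 1 := by rw [S.symm]; exact h
  rw [← S.fs y x h1]
  exact S.f1 y x h1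

omit [Fintype V] [DecidableEq V] in
theorem f4 {x y : V} (h : S.A x y = 1) : S.f (S.f x y) y = x := by
  have h1 : S.A y x = 1 := by rw [S.symm]; exact h
  have h2 : S.A y (S.f x y) = 1 := S.f3 h
  rw [← S.fs y (S.f x y) h2, ← S.fs y x h1]
  exact S.f2 y x h1

omit [Fintype V] [DecidableEq V] in
theorem f5 {x y : V} (h : S.A x y = 1) : S.A (S.f x y) y = 1 := by
  rw [S.symm]; exact S.f3 h

omit [DecidableEq V] in
/-- Change of variable in a sum over the neighbours of `x`, general form. -/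
theorem sum_swap2 (x : V) (g : V → V → ℝ) :
    ∑ y, S.A x y * g y (S.f x y) = ∑ y, S.A x y * g (S.f x y) y := by
  classical
  rw [S.sum_A univ x (fun y => g y (S.f x y)), S.sum_A univ x (fun y => g (S.f x y) y)]
  refine Finset.sum_nbij' (fun y => S.f x y) (fun y => S.f x y) ?_ ?_ ?_ ?_ ?_
  · intro y hy
    rw [Finset.mem_filter] at hy ⊢
    exact ⟨Finset.mem_univ _, S.f1 x y hy.2⟩
  · intro y hy
    rw [Finset.mem_filter] at hy ⊢
    exact ⟨Finset.mem_univ _, S.f1 x y hy.2⟩
  · intro y hy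
    rw [Finset.mem_filter] at hy
    exact S.f2 x y hy.2
  · intro y hy
    rw [Finset.mem_filter] at hy
    exact S.f2 x y hy.2
  · intro y hy
    rw [Finset.mem_filter] at hy
    rw [S.f2 x y hy.2]

omit [DecidableEq V] in
/-- Change of variable in a sum over the neighbours of `x`. -/
theorem sum_swap (x : V) (g : V → ℝ) : ∑ y, S.A x y * g (S.f x y) = ∑ y, S.A x y * g y :=
  S.sum_swap2 x (fun _ b => g b)

omit [DecidableEq V] in
theorem sum_E (g : V → V → ℝ) : ∑ x, ∑ y, S.A x y * g x y =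
    ∑ e : V × V with S.A e.1 e.2 = 1, g e.1 e.2 := by
  classical
  rw [Finset.sum_filter, Fintype.sum_prod_type]
  refine Finset.sum_congr rfl fun x _ => Finset.sum_congr rfl fun y _ => ?_
  rcases S.h01 x y with h | h
  · rw [h]; simp
  · rw [h]; simp

omit [DecidableEq V] in
/-- Rotation of the sum over ordered edges: `(x, y) ↦ (f x y, y)` and its relatives. -/
theorem sum_rot (g : V → V → V → ℝ) :
    ∑ x, ∑ y, S.A x y * g x y (S.f x y) = ∑ x, ∑ y, S.A x y * g (S.f x y) y x := by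
  classical
  rw [S.sum_E (fun x y => g x y (S.f x y)), S.sum_E (fun x y => g (S.f x y) y x)]
  refine Finset.sum_nbij' (fun e => (S.f e.1 e.2, e.2)) (fun e => (S.f e.1 e.2, e.2)) ?_ ?_ ?_ ?_ ?_
  · intro e he
    rw [Finset.mem_filter] at he ⊢
    exact ⟨Finset.mem_univ _, S.f5 he.2⟩
  · intro e he
    rw [Finset.mem_filter] at he ⊢
    exact ⟨Finset.mem_univ _, S.f5 he.2⟩
  · intro e he
    rw [Finset.mem_filter] at he
    exact Prod.ext (S.f4 he.2) rfl
  · intro e he
    rw [Finset.mem_filter] at he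
    exact Prod.ext (S.f4 he.2) rfl
  · intro e he
    rw [Finset.mem_filter] at he
    simp only [S.f4 he.2]

omit [Fintype V] in
/-- Twin inequality for one vertex `v` and a set `T`. -/
theorem twin_ineq' (v : V) (T : Finset V) :
    ∑ x' ∈ T, S.A v x' * ∑ x ∈ T, S.A v x * S.A x (S.f v x') ≤
      ((∑ x ∈ T, S.A v x) ^ 2 + ∑ x ∈ T, S.A v x) / 2 := by
  classical
  rw [S.sum_A T v (fun x' => ∑ x ∈ T, S.A v x * S.A x (S.f v x'))]
  have hd : ∑ x ∈ T, S.A v x = ((T.filter (fun y => S.A v y = 1)).card : ℝ) := by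
    have := S.sum_A T v (fun _ => 1)
    simpa using this
  rw [hd]
  set N := T.filter (fun y => S.A v y = 1) with hN
  have h1 : ∑ x' ∈ N, ∑ x ∈ T, S.A v x * S.A x (S.f v x') =
      ∑ x' ∈ N, ∑ x ∈ N, S.A x (S.f v x') :=
    Finset.sum_congr rfl fun x' _ => S.sum_A T v (fun x => S.A x (S.f v x'))
  rw [h1]
  have h2 : ∑ x' ∈ N, ∑ x ∈ N, S.A x (S.f v x') = ∑ x' ∈ N, ∑ x ∈ N, S.A x' (S.f v x) :=
    Finset.sum_comm
  have key : ∀ x' ∈ N, ∀ x ∈ N, S.A x (S.f v x') + S.A x' (S.f v x) ≤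
      1 + (if x = x' then 1 else 0) := by
    intro x' hx' x hx
    rw [hN, Finset.mem_filter] at hx hx'
    by_cases hxx : x = x'
    · subst hxx
      rw [if_pos rfl]
      have := S.A_le_one x (S.f v x)
      linarith
    rw [if_neg hxx, add_zero]
    by_cases hf : x' = S.f v x
    · have e1 : S.f v x' = x := by rw [hf]; exact S.f2 v x hx.2
      rw [e1, ← hf, S.irr, S.irr]
      norm_num
    have h3 := S.one v x x' hx.2 hx'.2 hxx hf
    have h4 := S.A_nonneg x x'
    have h5 := S.A_nonneg (S.f v x) (S.f v x')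
    rw [S.symm x' (S.f v x)]
    linarith
  have h3 : ∑ x' ∈ N, ∑ x ∈ N, (S.A x (S.f v x') + S.A x' (S.f v x)) ≤
      ∑ x' ∈ N, ∑ x ∈ N, (1 + (if x = x' then (1 : ℝ) else 0)) :=
    Finset.sum_le_sum fun x' hx' => Finset.sum_le_sum fun x hx => key x' hx' x hx
  have h4 : ∑ x' ∈ N, ∑ x ∈ N, (1 + (if x = x' then (1 : ℝ) else 0)) =
      (N.card : ℝ) ^ 2 + N.card := by
    have : ∀ x' ∈ N, ∑ x ∈ N, (1 + (if x = x' then (1 : ℝ) else 0)) = (N.card : ℝ) + 1 := by
      intro x' hx'
      rw [Finset.sum_add_distrib, Finset.sum_ite_eq' N x' (fun _ => (1 : ℝ)), if_pos hx']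
      simp
    rw [Finset.sum_congr rfl this]
    simp
    ring
  rw [h4] at h3
  simp only [Finset.sum_add_distrib] at h3
  rw [← h2] at h3
  linarith

/-- Twin inequality for one vertex `v` and a set `T`. -/
theorem twin_ineq (v : V) (T : Finset V) :
    ∑ x' ∈ T, S.A v x' * ∑ x ∈ T, S.A v x * S.A x (S.f v x') ≤
      ((∑ x ∈ T, S.A v x) ^ 2 + ∑ x ∈ T, S.A v x) / 2 :=
  S.twin_ineq' v T

/-- The number of triangles at `v`. -/
theorem tri_ineq (v : V) :
    ∑ x, ∑ x', S.A v x * S.A v x' * S.A x x' ≤ (∑ x, S.A v x) ^ 2 / 4 + (∑ x, S.A v x) := by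
  classical
  -- the four forms of the sum
  have e0 : ∀ B : V → V → ℝ, ∑ x, ∑ x', S.A v x * S.A v x' * B x x' =
      ∑ x, S.A v x * ∑ x', S.A v x' * B x x' := by
    intro B
    refine Finset.sum_congr rfl fun x _ => ?_
    rw [Finset.mul_sum]
    exact Finset.sum_congr rfl fun x' _ => by ring
  have s1 : ∀ B : V → V → ℝ, ∑ x, ∑ x', S.A v x * S.A v x' * B x (S.f v x') =
      ∑ x, ∑ x', S.A v x * S.A v x' * B x x' := by
    intro B
    rw [e0 (fun x x' => B x (S.f v x')), e0 B]
    exact Finset.sum_congr rfl fun x _ => by rw [S.sum_swap v (fun x' => B x x')]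
  have s2 : ∀ B : V → V → ℝ, ∑ x, ∑ x', S.A v x * S.A v x' * B (S.f v x) x' =
      ∑ x, ∑ x', S.A v x * S.A v x' * B x x' := by
    intro B
    rw [e0 (fun x x' => B (S.f v x) x'), e0 B]
    exact S.sum_swap v (fun x => ∑ x', S.A v x' * B x x')
  set Q := ∑ x, ∑ x', S.A v x * S.A v x' * S.A x x' with hQ
  have q1 : ∑ x, ∑ x', S.A v x * S.A v x' * S.A x (S.f v x') = Q := s1 S.A
  have q2 : ∑ x, ∑ x', S.A v x * S.A v x' * S.A (S.f v x) x' = Q := s2 S.A
  have q3 : ∑ x, ∑ x', S.A v x * S.A v x' * S.A (S.f v x) (S.f v x') = Q := by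
    rw [s1 (fun x x' => S.A (S.f v x) x'), q2]
  have key : ∀ x x', S.A v x * S.A v x' * (S.A x x' + S.A x (S.f v x') + S.A (S.f v x) x' +
      S.A (S.f v x) (S.f v x')) ≤ S.A v x * S.A v x' * 1 +
        S.A v x * (if x = x' then 1 else 0) + S.A v x * (if S.f v x = x' then 1 else 0) := by
    intro x x'
    rcases S.h01 v x with h | h
    · rw [h]; simp
    rcases S.h01 v x' with h' | h'
    · rw [h, h']
      have a1 : (0 : ℝ) ≤ (if x = x' then 1 else 0) := by split_ifs <;> norm_num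
      have a2 : (0 : ℝ) ≤ (if S.f v x = x' then 1 else 0) := by split_ifs <;> norm_num
      linarith
    rw [h, h']
    have b1 := S.A_le_one x (S.f v x)
    have b2 := S.A_le_one (S.f v x) x
    by_cases hxx : x = x'
    · subst hxx
      rw [if_pos rfl, S.irr, S.irr]
      have a2 : (0 : ℝ) ≤ (if S.f v x = x then 1 else 0) := by split_ifs <;> norm_num
      linarith
    by_cases hf : S.f v x = x'
    · subst hf
      rw [if_pos rfl, if_neg hxx, S.f2 v x h, S.irr, S.irr]
      linarith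
    rw [if_neg hxx, if_neg hf]
    have h3 := S.one v x x' h h' hxx (fun e => hf e.symm)
    linarith
  have hsum : ∑ x, ∑ x', S.A v x * S.A v x' * (S.A x x' + S.A x (S.f v x') + S.A (S.f v x) x' +
      S.A (S.f v x) (S.f v x')) ≤ ∑ x, ∑ x', (S.A v x * S.A v x' * 1 +
        S.A v x * (if x = x' then 1 else 0) + S.A v x * (if S.f v x = x' then 1 else 0)) :=
    Finset.sum_le_sum fun x _ => Finset.sum_le_sum fun x' _ => key x x'
  have hl : ∑ x, ∑ x', S.A v x * S.A v x' * (S.A x x' + S.A x (S.f v x') + S.A (S.f v x) x' +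
      S.A (S.f v x) (S.f v x')) = 4 * Q := by
    simp only [mul_add, Finset.sum_add_distrib]
    rw [q1, q2, q3]
    ring
  have hr : ∑ x, ∑ x', (S.A v x * S.A v x' * 1 +
        S.A v x * (if x = x' then 1 else 0) + S.A v x * (if S.f v x = x' then 1 else 0)) =
      (∑ x, S.A v x) ^ 2 + 2 * ∑ x, S.A v x := by
    have : ∀ x, ∑ x', (S.A v x * S.A v x' * 1 +
        S.A v x * (if x = x' then 1 else 0) + S.A v x * (if S.f v x = x' then 1 else 0)) =
        S.A v x * (∑ x', S.A v x') + 2 * S.A v x := by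
      intro x
      rw [Finset.sum_add_distrib, Finset.sum_add_distrib, ← Finset.mul_sum (univ) _ (S.A v x),
        ← Finset.mul_sum (univ) _ (S.A v x)]
      simp only [mul_one, Finset.sum_ite_eq, Finset.mem_univ, if_true]
      rw [← Finset.mul_sum]
      ring
    rw [Finset.sum_congr rfl fun x _ => this x, Finset.sum_add_distrib, ← Finset.sum_mul,
      ← Finset.mul_sum]
    ring
  rw [hl, hr] at hsum
  have hd : 0 ≤ ∑ x, S.A v x := Finset.sum_nonneg fun x _ => S.A_nonneg v x
  linarith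

end Sys

end Pool.Agent.Helper18.SF
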