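import Pool.Agent.Helper18.SF.Defs

set_option autoImplicit false

/-! From 3-graphs in which seven vertices span at most three edges to systems. -/

namespace Pool.Agent.Helper18.SF

open Finset

/-- Four distinct edges do not lie in seven vertices. -/
private theorem four_edges {V : Type} [DecidableEq V] (H : Finset (Finset V))
    (h7 : ∀ W : Finset V, W.card ≤ 7 → (H.filter (fun e => e ⊆ W)).card ≤ 3) :
    ∀ a ∈ H, ∀ b ∈ H, ∀ c ∈ H, ∀ d ∈ H, a ≠ b → a ≠ c → a ≠ d → b ≠ c → b ≠ d →
      c ≠ d → (a ∪ b ∪ c ∪ d).card ≤ 7 → False := by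
  intro a ha b hb c hc d hd hab hac had hbc hbd hcd hW
  have h := h7 _ hW
  have hsub : ({a, b, c, d} : Finset (Finset V)) ⊆
      H.filter (fun e => e ⊆ a ∪ b ∪ c ∪ d) := by
    intro e he
    simp only [mem_insert, mem_singleton] at he
    rw [mem_filter]
    rcases he with rfl | rfl | rfl | rfl
    · exact ⟨ha, by intro x hx; simp [hx]⟩
    · exact ⟨hb, by intro x hx; simp [hx]⟩
    · exact ⟨hc, by intro x hx; simp [hx]⟩
    · exact ⟨hd, by intro x hx; simp [hx]⟩
  have hc4 : ({a, b, c, d} : Finset (Finset V)).card = 4 := by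
    rw [card_insert_of_notMem, card_insert_of_notMem, card_insert_of_notMem, card_singleton]
    · simpa using hcd
    · simp only [mem_insert, mem_singleton, not_or]; exact ⟨hbc, hbd⟩
    · simp only [mem_insert, mem_singleton, not_or]; exact ⟨hab, hac, had⟩
  have := card_le_card hsub
  omega

/-- Two edges `E1`, `E2` through `v` and two further edges through different cross pairs. -/
private theorem cross_false {V : Type} [DecidableEq V] (H : Finset (Finset V))
    (h3 : ∀ e ∈ H, e.card = 3)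
    (h7 : ∀ W : Finset V, W.card ≤ 7 → (H.filter (fun e => e ⊆ W)).card ≤ 3)
    (heq : ∀ e ∈ H, ∀ g ∈ H, ∀ x y : V, x ≠ y → x ∈ e → y ∈ e → x ∈ g → y ∈ g → e = g)
    (v : V) (E1 E2 e3 e4 : Finset V) (a3 : E1 ∈ H) (b3 : E2 ∈ H) (he3 : e3 ∈ H) (he4 : e4 ∈ H)
    (hv1 : v ∈ E1) (hv2 : v ∈ E2) (p p' r r' : V)
    (pE1 : p ∈ E1) (rE1 : r ∈ E1) (p'E2 : p' ∈ E2) (r'E2 : r' ∈ E2)
    (np'E1 : p' ∉ E1) (nr'E1 : r' ∉ E1) (npE2 : p ∉ E2) (nrE2 : r ∉ E2)
    (hpe3 : p ∈ e3) (hp'e3 : p' ∈ e3) (hre4 : r ∈ e4) (hr'e4 : r' ∈ e4)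
    (hdiff : p ≠ r ∨ p' ≠ r') : False := by
  have hpp' : p ≠ p' := fun h => np'E1 (h ▸ pE1)
  have hrr' : r ≠ r' := fun h => nr'E1 (h ▸ rE1)
  have h12 : E1 ≠ E2 := fun h => npE2 (h ▸ pE1)
  have h13 : E1 ≠ e3 := fun h => np'E1 (h ▸ hp'e3)
  have h14 : E1 ≠ e4 := fun h => nr'E1 (h ▸ hr'e4)
  have h23 : E2 ≠ e3 := fun h => npE2 (h ▸ hpe3)
  have h24 : E2 ≠ e4 := fun h => nrE2 (h ▸ hre4)
  have h34 : e3 ≠ e4 := by
    intro h
    subst h
    rcases hdiff with hd | hd
    · exact h13 (heq _ a3 _ he3 p r hd pE1 rE1 hpe3 hre4)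
    · exact h23 (heq _ b3 _ he3 p' r' hd p'E2 r'E2 hp'e3 hr'e4)
  have c1 : E1.card = 3 := h3 _ a3
  have c2 : E2.card = 3 := h3 _ b3
  have c12 : (E1 ∪ E2).card ≤ 5 := by
    have h1 := card_union_add_card_inter E1 E2
    have h2 : 1 ≤ (E1 ∩ E2).card := card_pos.mpr ⟨v, mem_inter.mpr ⟨hv1, hv2⟩⟩
    omega
  have dd : ∀ e ∈ H, ∀ s s' : V, s ≠ s' → s ∈ e → s' ∈ e → s ∈ E1 → s' ∈ E2 →
      (e \ (E1 ∪ E2)).card ≤ 1 := by
    intro e he s s' hss hs hs' hs1 hs2
    have h1 := card_sdiff_add_card_inter e (E1 ∪ E2)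
    have h2 := h3 _ he
    have h4 : 2 ≤ (e ∩ (E1 ∪ E2)).card := by
      have : ({s, s'} : Finset V) ⊆ e ∩ (E1 ∪ E2) := by
        intro z hz
        simp only [mem_insert, mem_singleton] at hz
        simp only [mem_inter, mem_union]
        rcases hz with rfl | rfl
        · exact ⟨hs, Or.inl hs1⟩
        · exact ⟨hs', Or.inr hs2⟩
      have h5 := card_le_card this
      rw [card_pair hss] at h5
      exact h5
    omega
  have d3 := dd e3 he3 p p' hpp' hpe3 hp'e3 pE1 p'E2
  have d4 := dd e4 he4 r r' hrr' hre4 hr'e4 rE1 r'E2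
  refine four_edges H h7 E1 a3 E2 b3 e3 he3 e4 he4 h12 h13 h14 h23 h24 h34 ?_
  have hsub : E1 ∪ E2 ∪ e3 ∪ e4 ⊆ E1 ∪ E2 ∪ (e3 \ (E1 ∪ E2)) ∪ (e4 \ (E1 ∪ E2)) := by
    intro z hz
    by_cases hz' : z ∈ E1 ∪ E2
    · exact mem_union_left _ (mem_union_left _ hz')
    · rcases mem_union.mp hz with h | h
      · rcases mem_union.mp h with h' | h'
        · exact absurd h' hz'
        · exact mem_union_left _ (mem_union_right _ (mem_sdiff.mpr ⟨h', hz'⟩))
      · exact mem_union_right _ (mem_sdiff.mpr ⟨h, hz'⟩)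
  have e4' := card_le_card hsub
  have e5 := card_union_le (E1 ∪ E2 ∪ (e3 \ (E1 ∪ E2))) (e4 \ (E1 ∪ E2))
  have e6 := card_union_le (E1 ∪ E2) (e3 \ (E1 ∪ E2))
  omega

/-- Few edges meet another edge in at least two vertices. -/
private theorem bad_card {V : Type} [Fintype V] [DecidableEq V] (H : Finset (Finset V))
    (h3 : ∀ e ∈ H, e.card = 3)
    (h7 : ∀ W : Finset V, W.card ≤ 7 → (H.filter (fun e => e ⊆ W)).card ≤ 3) :
    (H.filter (fun e => ∃ g ∈ H, g ≠ e ∧ 2 ≤ (e ∩ g).card)).card ≤ Fintype.card V := by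
  classical
  set B := H.filter (fun e => ∃ g ∈ H, g ≠ e ∧ 2 ≤ (e ∩ g).card) with hB
  have four := four_edges H h7
  have un : ∀ a ∈ H, ∀ b ∈ H, 2 ≤ (a ∩ b).card → (a ∪ b).card ≤ 4 := by
    intro a ha b hb h
    have h1 := card_union_add_card_inter a b
    have h2 := h3 a ha
    have h4 := h3 b hb
    omega
  -- at most three bad edges at a vertex
  have hv : ∀ v : V, (B.filter (fun e => v ∈ e)).card ≤ 3 := by
    intro v
    by_contra hcon
    push Not at hcon
    have hne : (B.filter (fun e => v ∈ e)).Nonempty := by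
      rw [← card_pos]; omega
    obtain ⟨a, ha⟩ := hne
    rw [mem_filter, hB, mem_filter] at ha
    obtain ⟨⟨haH, a', ha'H, haa', haI⟩, hva⟩ := ha
    -- the others
    have key : ∀ g ∈ B.filter (fun e => v ∈ e), g ≠ a → g ≠ a' →
        (g \ (a ∪ a')).card ≤ 1 := by
      intro g hg hga hga'
      rw [mem_filter, hB, mem_filter] at hg
      obtain ⟨⟨hgH, g', hg'H, hgg', hgI⟩, hvg⟩ := hg
      have hg'm : g' = a ∨ g' = a' := by
        by_contra hno
        push Not at hno
        refine four a haH a' ha'H g hgH g' hg'H haa'.symm (Ne.symm hga) (Ne.symm hno.1)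
          (Ne.symm hga') (Ne.symm hno.2) hgg'.symm ?_
        have e1 : a ∪ a' ∪ g ∪ g' = (a ∪ a') ∪ (g ∪ g') := by
          rw [union_assoc]
        have e2 := card_union_add_card_inter (a ∪ a') (g ∪ g')
        have e3 := un a haH a' ha'H haI
        have e4 := un g hgH g' hg'H hgI
        have e5 : 1 ≤ ((a ∪ a') ∩ (g ∪ g')).card := by
          apply card_pos.mpr
          exact ⟨v, by simp [hva, hvg]⟩
        rw [e1]
        omega
      have e1 := card_sdiff_add_card_inter g (a ∪ a')
      have e2 := h3 g hgH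
      have e3 : 2 ≤ (g ∩ (a ∪ a')).card := by
        refine le_trans hgI (card_le_card ?_)
        rcases hg'm with rfl | rfl
        · intro x hx
          simp only [mem_inter, mem_union] at hx ⊢
          exact ⟨hx.1, Or.inl hx.2⟩
        · intro x hx
          simp only [mem_inter, mem_union] at hx ⊢
          exact ⟨hx.1, Or.inr hx.2⟩
      omega
    have hcard : 2 ≤ (((B.filter (fun e => v ∈ e)).erase a).erase a').card := by
      have h1 := pred_card_le_card_erase (s := B.filter (fun e => v ∈ e)) (a := a)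
      have h2 := pred_card_le_card_erase (s := (B.filter (fun e => v ∈ e)).erase a) (a := a')
      omega
    obtain ⟨g, hg, h, hh, hgh⟩ := one_lt_card.mp (lt_of_lt_of_le (by norm_num) hcard)
    simp only [mem_erase] at hg hh
    have hgB := hg.2.2
    have hhB := hh.2.2
    have k1 := key g hgB hg.2.1 hg.1
    have k2 := key h hhB hh.2.1 hh.1
    have hgH : g ∈ H := (mem_filter.mp (mem_filter.mp hgB).1).1
    have hhH : h ∈ H := (mem_filter.mp (mem_filter.mp hhB).1).1
    refine four a haH a' ha'H g hgH h hhH haa'.symm (Ne.symm hg.2.1) (Ne.symm hh.2.1)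
      (Ne.symm hg.1) (Ne.symm hh.1) hgh ?_
    have e3 := un a haH a' ha'H haI
    have hsub : a ∪ a' ∪ g ∪ h ⊆ (a ∪ a') ∪ (g \ (a ∪ a')) ∪ (h \ (a ∪ a')) := by
      intro x hx
      simp only [mem_union, mem_sdiff] at hx ⊢
      tauto
    have e4 := card_le_card hsub
    have e5 := card_union_le ((a ∪ a') ∪ (g \ (a ∪ a'))) (h \ (a ∪ a'))
    have e6 := card_union_le (a ∪ a') (g \ (a ∪ a'))
    omega
  -- double counting
  have hdc : ∑ e ∈ B, e.card = ∑ v : V, (B.filter (fun e => v ∈ e)).card := by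
    have h1 : ∀ e ∈ B, e.card = ∑ v : V, if v ∈ e then 1 else 0 := by
      intro e _
      simp
    rw [sum_congr rfl h1, sum_comm]
    apply sum_congr rfl
    intro v _
    rw [card_filter]
  have hl : ∑ e ∈ B, e.card = 3 * B.card := by
    rw [sum_congr rfl (fun e he => h3 e (mem_filter.mp he).1), sum_const, smul_eq_mul, mul_comm]
  have hr : ∑ v : V, (B.filter (fun e => v ∈ e)).card ≤ 3 * Fintype.card V := by
    calc ∑ v : V, (B.filter (fun e => v ∈ e)).card ≤ ∑ _v : V, 3 := sum_le_sum (fun v _ => hv v)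
      _ = 3 * Fintype.card V := by rw [sum_const, card_univ, smul_eq_mul, mul_comm]
  omega

/-- Linear 3-graphs give systems. -/
private theorem sys_of_linear {V : Type} [Fintype V] [DecidableEq V] (H : Finset (Finset V))
    (h3 : ∀ e ∈ H, e.card = 3)
    (hlin : ∀ e ∈ H, ∀ g ∈ H, e ≠ g → (e ∩ g).card ≤ 1)
    (h7 : ∀ W : Finset V, W.card ≤ 7 → (H.filter (fun e => e ⊆ W)).card ≤ 3) :
    ∃ S : Sys V, (∀ x y, S.A x y = 1 ↔ (x ≠ y ∧ ∃ e ∈ H, x ∈ e ∧ y ∈ e)) ∧
      6 * (H.card : ℝ) ≤ ∑ x, ∑ y, S.A x y := by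
  classical
  -- two edges sharing two points agree
  have heq : ∀ e ∈ H, ∀ g ∈ H, ∀ x y : V, x ≠ y → x ∈ e → y ∈ e → x ∈ g → y ∈ g → e = g := by
    intro e he g hg x y hxy hxe hye hxg hyg
    by_contra hne
    have h1 := hlin e he g hg hne
    have h2 : ({x, y} : Finset V) ⊆ e ∩ g := by
      intro z hz
      simp only [mem_insert, mem_singleton] at hz
      rcases hz with rfl | rfl <;> simp [*]
    have h4 := card_le_card h2
    rw [card_pair hxy] at h4
    omega
  -- third vertex
  have hthird : ∀ x y : V, (x ≠ y ∧ ∃ e ∈ H, x ∈ e ∧ y ∈ e) →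
      ∃ z, z ≠ x ∧ z ≠ y ∧ ({x, y, z} : Finset V) ∈ H := by
    rintro x y ⟨hxy, e, he, hx, hy⟩
    have hc : ((e.erase x).erase y).card = 1 := by
      rw [card_erase_of_mem (mem_erase.mpr ⟨hxy.symm, hy⟩), card_erase_of_mem hx, h3 e he]
    obtain ⟨z, hz⟩ := card_eq_one.mp hc
    have hz' : z ∈ (e.erase x).erase y := by rw [hz]; exact mem_singleton_self z
    simp only [mem_erase] at hz'
    refine ⟨z, hz'.2.1, hz'.1, ?_⟩
    have : ({x, y, z} : Finset V) = e := by
      apply eq_of_subset_of_card_le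
      · intro u hu
        simp only [mem_insert, mem_singleton] at hu
        rcases hu with rfl | rfl | rfl
        · exact hx
        · exact hy
        · exact hz'.2.2
      · rw [h3 e he, card_insert_of_notMem, card_pair hz'.1.symm]
        simp only [mem_insert, mem_singleton, not_or]
        exact ⟨hxy, hz'.2.1.symm⟩
    rw [this]
    exact he
  let P : V → V → Prop := fun x y => x ≠ y ∧ ∃ e ∈ H, x ∈ e ∧ y ∈ e
  have hPs : ∀ x y, P x y → P y x := by
    rintro x y ⟨hxy, e, he, hx, hy⟩
    exact ⟨hxy.symm, e, he, hy, hx⟩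
  let A : V → V → ℝ := fun x y => if P x y then 1 else 0
  have hA : ∀ x y, A x y = 1 ↔ P x y := by
    intro x y
    simp only [A]
    split_ifs with h <;> simp [h]
  let f : V → V → V := fun x y => if h : P x y then (hthird x y h).choose else x
  have hf : ∀ x y, P x y → f x y ≠ x ∧ f x y ≠ y ∧ ({x, y, f x y} : Finset V) ∈ H := by
    intro x y h
    have : f x y = (hthird x y h).choose := by simp only [f, dif_pos h]
    rw [this]
    exact (hthird x y h).choose_spec
  -- uniqueness
  have hu : ∀ x y z, P x y → z ≠ x → z ≠ y → ({x, y, z} : Finset V) ∈ H → f x y = z := by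
    intro x y z h hzx hzy hz
    obtain ⟨k1, k2, k3⟩ := hf x y h
    have he := heq _ k3 _ hz x y h.1 (by simp) (by simp) (by simp) (by simp)
    have : f x y ∈ ({x, y, z} : Finset V) := by rw [← he]; simp
    simp only [mem_insert, mem_singleton] at this
    rcases this with h' | h' | h'
    · exact absurd h' k1
    · exact absurd h' k2
    · exact h'
  have hxf : ∀ x y, P x y → P x (f x y) := by
    intro x y h
    obtain ⟨k1, k2, k3⟩ := hf x y h
    exact ⟨k1.symm, _, k3, by simp, by simp⟩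
  have h01 : ∀ x y, A x y = 0 ∨ A x y = 1 := by
    intro x y
    simp only [A]
    split_ifs <;> simp
  have hsymm : ∀ x y, A x y = A y x := by
    intro x y
    simp only [A]
    by_cases h : P x y
    · rw [if_pos h, if_pos (hPs _ _ h)]
    · rw [if_neg h, if_neg (fun h' => h (hPs _ _ h'))]
  have hone : ∀ v x x', A v x = 1 → A v x' = 1 → x ≠ x' → x' ≠ f v x →
      A x x' + A x (f v x') + A (f v x) x' + A (f v x) (f v x') ≤ 1 := by
    intro v x x' hvx hvx' hxx' hx'f
    rw [hA] at hvx hvx'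
    obtain ⟨a1, a2, a3⟩ := hf v x hvx
    obtain ⟨b1, b2, b3⟩ := hf v x' hvx'
    set y := f v x with hy
    set y' := f v x' with hy'
    have hyy' : y ≠ y' := by
      intro h
      -- both edges contain v, y
      have he := heq _ a3 _ b3 v y a1.symm (by simp) (by simp) (by simp) (by simp [h])
      have : x' ∈ ({v, x, y} : Finset V) := by rw [he]; simp
      simp only [mem_insert, mem_singleton] at this
      rcases this with h' | h' | h'
      · exact hvx'.1 h'.symm
      · exact hxx' h'.symm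
      · exact hx'f h'
    have hxy' : x ≠ y' := by
      intro h
      have he := heq _ a3 _ b3 v x hvx.1 (by simp) (by simp) (by simp) (by simp [h])
      have : x' ∈ ({v, x, y} : Finset V) := by rw [he]; simp
      simp only [mem_insert, mem_singleton] at this
      rcases this with h' | h' | h'
      · exact hvx'.1 h'.symm
      · exact hxx' h'.symm
      · exact hx'f h'
    -- E1 = {v,x,y}, E2 = {v,x',y'}
    -- general principle: two different cross pairs give a contradiction
    have cross : ∀ p ∈ ({x, y} : Finset V), ∀ p' ∈ ({x', y'} : Finset V),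
        ∀ r ∈ ({x, y} : Finset V), ∀ r' ∈ ({x', y'} : Finset V),
        (p ≠ r ∨ p' ≠ r') → P p p' → P r r' → False := by
      intro p hp p' hp' r hr r' hr' hdiff hP hR
      obtain ⟨hpp', e3, he3, hpe3, hp'e3⟩ := hP
      obtain ⟨hrr', e4, he4, hre4, hr'e4⟩ := hR
      have pE1 : p ∈ ({v, x, y} : Finset V) := by
        simp only [mem_insert, mem_singleton] at hp ⊢; tauto
      have rE1 : r ∈ ({v, x, y} : Finset V) := by
        simp only [mem_insert, mem_singleton] at hr ⊢; tauto
      have p'E2 : p' ∈ ({v, x', y'} : Finset V) := by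
        simp only [mem_insert, mem_singleton] at hp' ⊢; tauto
      have r'E2 : r' ∈ ({v, x', y'} : Finset V) := by
        simp only [mem_insert, mem_singleton] at hr' ⊢; tauto
      have nx'E1 : x' ∉ ({v, x, y} : Finset V) := by
        simp only [mem_insert, mem_singleton, not_or]
        exact ⟨hvx'.1.symm, hxx'.symm, hx'f⟩
      have ny'E1 : y' ∉ ({v, x, y} : Finset V) := by
        simp only [mem_insert, mem_singleton, not_or]
        exact ⟨b1, hxy'.symm, hyy'.symm⟩
      have nxE2 : x ∉ ({v, x', y'} : Finset V) := by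
        simp only [mem_insert, mem_singleton, not_or]
        exact ⟨hvx.1.symm, hxx', hxy'⟩
      have nyE2 : y ∉ ({v, x', y'} : Finset V) := by
        simp only [mem_insert, mem_singleton, not_or]
        exact ⟨a1, Ne.symm hx'f, hyy'⟩
      have np'E1 : p' ∉ ({v, x, y} : Finset V) := by
        simp only [mem_insert, mem_singleton] at hp'
        rcases hp' with rfl | rfl
        · exact nx'E1
        · exact ny'E1
      have nr'E1 : r' ∉ ({v, x, y} : Finset V) := by
        simp only [mem_insert, mem_singleton] at hr'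
        rcases hr' with rfl | rfl
        · exact nx'E1
        · exact ny'E1
      have npE2 : p ∉ ({v, x', y'} : Finset V) := by
        simp only [mem_insert, mem_singleton] at hp
        rcases hp with rfl | rfl
        · exact nxE2
        · exact nyE2
      have nrE2 : r ∉ ({v, x', y'} : Finset V) := by
        simp only [mem_insert, mem_singleton] at hr
        rcases hr with rfl | rfl
        · exact nxE2
        · exact nyE2
      exact cross_false H h3 h7 heq v _ _ e3 e4 a3 b3 he3 he4 (by simp) (by simp) p p' r r'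
        pE1 rE1 p'E2 r'E2 np'E1 nr'E1 npE2 nrE2 hpe3 hp'e3 hre4 hr'e4 hdiff
    have mx : x ∈ ({x, y} : Finset V) := by simp
    have my : y ∈ ({x, y} : Finset V) := by simp
    have mx' : x' ∈ ({x', y'} : Finset V) := by simp
    have my' : y' ∈ ({x', y'} : Finset V) := by simp
    have hxy : x ≠ y := a2.symm
    have hx'y' : x' ≠ y' := b2.symm
    simp only [A]
    by_cases p1 : P x x'
    · have n2 : ¬ P x y' := fun h => cross x mx x' mx' x mx y' my' (Or.inr hx'y') p1 h
      have n3 : ¬ P y x' := fun h => cross x mx x' mx' y my x' mx' (Or.inl hxy) p1 h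
      have n4 : ¬ P y y' := fun h => cross x mx x' mx' y my y' my' (Or.inl hxy) p1 h
      rw [if_pos p1, if_neg n2, if_neg n3, if_neg n4]; norm_num
    · by_cases p2 : P x y'
      · have n3 : ¬ P y x' := fun h => cross x mx y' my' y my x' mx' (Or.inl hxy) p2 h
        have n4 : ¬ P y y' := fun h => cross x mx y' my' y my y' my' (Or.inl hxy) p2 h
        rw [if_neg p1, if_pos p2, if_neg n3, if_neg n4]; norm_num
      · by_cases p3 : P y x'
        · have n4 : ¬ P y y' := fun h => cross y my x' mx' y my y' my' (Or.inr hx'y') p3 h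
          rw [if_neg p1, if_neg p2, if_pos p3, if_neg n4]; norm_num
        · rw [if_neg p1, if_neg p2, if_neg p3]
          split_ifs <;> norm_num
  refine ⟨{ A := A, f := f, h01 := h01, symm := hsymm, irr := ?_, fs := ?_, f1 := ?_, f2 := ?_,
            one := hone }, hA, ?_⟩
  · intro x
    simp only [A]
    rw [if_neg]
    exact fun h => h.1 rfl
  · intro x y h
    rw [hA] at h
    obtain ⟨k1, k2, k3⟩ := hf y x (hPs _ _ h)
    refine hu x y _ h k2 k1 ?_
    have : ({x, y, f y x} : Finset V) = {y, x, f y x} := by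
      ext u; simp only [mem_insert, mem_singleton]; tauto
    rw [this]; exact k3
  · intro x y h
    rw [hA] at h
    exact (hA _ _).mpr (hxf x y h)
  · intro x y h
    rw [hA] at h
    obtain ⟨k1, k2, k3⟩ := hf x y h
    refine hu x (f x y) y (hxf x y h) h.1.symm k2.symm ?_
    have : ({x, f x y, y} : Finset V) = {x, y, f x y} := by
      ext u; simp only [mem_insert, mem_singleton]; tauto
    rw [this]; exact k3
  · -- the count
    have hsum : ∑ x, ∑ y, A x y =
        (((univ : Finset (V × V)).filter (fun p => P p.1 p.2)).card : ℝ) := by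
      rw [← Fintype.sum_prod_type' (f := fun x y => A x y), card_filter]
      push_cast
      rfl
    have hbi : H.biUnion (fun e => e.offDiag) ⊆
        (univ : Finset (V × V)).filter (fun p => P p.1 p.2) := by
      intro p hp
      simp only [mem_biUnion, mem_offDiag] at hp
      obtain ⟨e, he, h1, h2, h4⟩ := hp
      rw [mem_filter]
      exact ⟨mem_univ _, h4, e, he, h1, h2⟩
    have hdis : Set.PairwiseDisjoint (↑H) (fun e : Finset V => e.offDiag) := by
      intro e he g hg hne
      rw [Function.onFun, Finset.disjoint_left]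
      intro p hp hq
      simp only [mem_offDiag] at hp hq
      exact hne (heq e he g hg p.1 p.2 hp.2.2 hp.1 hp.2.1 hq.1 hq.2.1)
    have hcb : (H.biUnion (fun e => e.offDiag)).card = 6 * H.card := by
      rw [card_biUnion hdis, sum_congr rfl (fun e he => by rw [offDiag_card, h3 e he]),
        sum_const, smul_eq_mul]
      omega
    have hle := card_le_card hbi
    rw [hcb] at hle
    show 6 * (H.card : ℝ) ≤ ∑ x, ∑ y, A x y
    rw [hsum]
    exact_mod_cast hle

theorem exists_sys' {V : Type} [Fintype V] [DecidableEq V] (H : Finset (Finset V))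
    (h3 : ∀ e ∈ H, e.card = 3)
    (h7 : ∀ W : Finset V, W.card ≤ 7 → (H.filter (fun e => e ⊆ W)).card ≤ 3) :
    ∃ S : Sys V, (∀ x y, S.A x y = 1 → (x ≠ y ∧ ∃ e ∈ H, x ∈ e ∧ y ∈ e)) ∧
      (((univ : Finset (V × V)).filter (fun p => (p.1 ≠ p.2 ∧ ∃ e ∈ H, p.1 ∈ e ∧ p.2 ∈ e) ∧
        S.A p.1 p.2 = 0)).card ≤ 6 * Fintype.card V) ∧
      6 * (H.card : ℝ) ≤ (∑ x, ∑ y, S.A x y) + 6 * (Fintype.card V : ℝ) := by
  classical
  set B := H.filter (fun e => ∃ g ∈ H, g ≠ e ∧ 2 ≤ (e ∩ g).card) with hB
  have hb : B.card ≤ Fintype.card V := bad_card H h3 h7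
  set H' := H.filter (fun e => ¬ ∃ g ∈ H, g ≠ e ∧ 2 ≤ (e ∩ g).card) with hH'
  have hsplit : B.card + H'.card = H.card :=
    card_filter_add_card_filter_not (s := H) (fun e => ∃ g ∈ H, g ≠ e ∧ 2 ≤ (e ∩ g).card)
  have hsub : ∀ e ∈ H', e ∈ H := fun e he => (mem_filter.mp he).1
  obtain ⟨S, hSA, hS⟩ := sys_of_linear H' (fun e he => h3 e (hsub e he))
    (by
      intro e he g hg hne
      by_contra hcon
      push Not at hcon
      exact (mem_filter.mp he).2 ⟨g, hsub g hg, hne.symm, hcon⟩)
    (by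
      intro W hW
      refine le_trans (card_le_card ?_) (h7 W hW)
      intro e he
      rw [mem_filter] at he ⊢
      exact ⟨hsub e he.1, he.2⟩)
  refine ⟨S, ?_, ?_, ?_⟩
  · intro x y h
    obtain ⟨hxy, e, he, hx, hy⟩ := (hSA x y).mp h
    exact ⟨hxy, e, hsub e he, hx, hy⟩
  · have hcov : (univ : Finset (V × V)).filter (fun p => (p.1 ≠ p.2 ∧
        ∃ e ∈ H, p.1 ∈ e ∧ p.2 ∈ e) ∧ S.A p.1 p.2 = 0) ⊆ B.biUnion (fun e => e.offDiag) := by
      intro p hp
      rw [mem_filter] at hp
      obtain ⟨-, ⟨hne, e, he, h1, h2⟩, h0⟩ := hp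
      rw [mem_biUnion]
      refine ⟨e, ?_, by rw [mem_offDiag]; exact ⟨h1, h2, hne⟩⟩
      rw [hB, mem_filter]
      refine ⟨he, ?_⟩
      by_contra hcon
      have he' : e ∈ H' := by rw [hH', mem_filter]; exact ⟨he, hcon⟩
      have h1' := (hSA p.1 p.2).mpr ⟨hne, e, he', h1, h2⟩
      rw [h0] at h1'
      norm_num at h1'
    calc _ ≤ (B.biUnion (fun e => e.offDiag)).card := card_le_card hcov
      _ ≤ ∑ e ∈ B, (e.offDiag).card := card_biUnion_le
      _ = ∑ _e ∈ B, 6 := by
          refine Finset.sum_congr rfl (fun e he => ?_)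
          rw [offDiag_card, h3 e (mem_filter.mp he).1]
      _ = 6 * B.card := by rw [sum_const, smul_eq_mul, mul_comm]
      _ ≤ 6 * Fintype.card V := Nat.mul_le_mul_left 6 hb
  · have h1 : (H.card : ℝ) = (B.card : ℝ) + (H'.card : ℝ) := by exact_mod_cast hsplit.symm
    have h2 : (B.card : ℝ) ≤ (Fintype.card V : ℝ) := by exact_mod_cast hb
    rw [h1]
    linarith

end Pool.Agent.Helper18.SF
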