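import Mathlib

set_option autoImplicit false

/-! Definitions for the energy inequality of the shadow. -/

namespace Pool.Agent.Helper18.SF

open Finset

/-- Number of the ordered pairs of different vertices `(x, y)`, `x ∈ U`, `y ∈ W`, which lie in a
common edge of `H`. -/
def links {n : ℕ} (H : Finset (Finset (Fin n))) (U W : Finset (Fin n)) : ℕ :=
  ((U ×ˢ W).filter (fun q => q.1 ≠ q.2 ∧ ∃ e ∈ H, q.1 ∈ e ∧ q.2 ∈ e)).card

/-- Part `j` of the partition of `Fin n` given by `p`. -/
def cls {n K : ℕ} (p : Fin n → Fin K) (j : Fin K) : Finset (Fin n) :=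
  univ.filter (fun x => p x = j)

/-- Number of the ordered pairs `(x, y)` for which 'x, y are different and lie in a common edge'
and `(p x, p y) ∈ T` disagree. -/
def dist {n K : ℕ} (H : Finset (Finset (Fin n))) (p : Fin n → Fin K)
    (T : Finset (Fin K × Fin K)) : ℕ :=
  ((univ : Finset (Fin n × Fin n)).filter (fun q =>
    ¬ ((q.1 ≠ q.2 ∧ ∃ e ∈ H, q.1 ∈ e ∧ q.2 ∈ e) ↔ (p q.1, p q.2) ∈ T))).card

end Pool.Agent.Helper18.SF
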