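import Pool.Agent.Helper18.SF.Ener2
import Pool.Agent.Helper18.SF.Comb2
import Pool.Agent.Helper18.SF.EDefs

set_option autoImplicit false

/-! The energy inequality for the shadow of a 3-graph. -/

namespace Pool.Agent.Helper18.SF

open Finset

/-- Indicator of the shadow. -/
noncomputable def ind {n : ℕ} (H : Finset (Finset (Fin n))) (x y : Fin n) : ℝ :=
  if x ≠ y ∧ ∃ e ∈ H, x ∈ e ∧ y ∈ e then 1 else 0

theorem links_eq {n : ℕ} (H : Finset (Finset (Fin n))) (U W : Finset (Fin n)) :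
    (links H U W : ℝ) = ∑ x ∈ U, ∑ y ∈ W, ind H x y := by
  unfold links ind
  rw [card_filter]
  push_cast
  rw [Finset.sum_product]

theorem links_le {n : ℕ} (H : Finset (Finset (Fin n))) (U W : Finset (Fin n)) :
    (links H U W : ℝ) ≤ (U.card : ℝ) * (W.card : ℝ) := by
  unfold links
  have := card_filter_le (U ×ˢ W) (fun q => q.1 ≠ q.2 ∧ ∃ e ∈ H, q.1 ∈ e ∧ q.2 ∈ e)
  rw [card_product] at this
  exact_mod_cast this

theorem part_eq_cls {n K : ℕ} (p : Fin n → Fin K) (j : Fin K) : part p j = cls p j := rfl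

theorem sum_cls {n K : ℕ} (p : Fin n → Fin K) (g : Fin n → ℝ) :
    ∑ j, ∑ x ∈ cls p j, g x = ∑ x, g x := sum_part p g

/-- Fewer than four edges on seven vertices, for sets of at most seven vertices. -/
theorem small_of_seven {n : ℕ} (hn : 7 ≤ n) (H : Finset (Finset (Fin n)))
    (h7 : ∀ W : Finset (Fin n), W.card = 7 → (H.filter (fun e => e ⊆ W)).card < 4)
    (W : Finset (Fin n)) (hW : W.card ≤ 7) : (H.filter (fun e => e ⊆ W)).card ≤ 3 := by
  obtain ⟨U, hWU, hU⟩ := Finset.exists_superset_card_eq hW (by rw [Fintype.card_fin]; exact hn)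
  have h1 := h7 U hU
  have h2 : H.filter (fun e => e ⊆ W) ⊆ H.filter (fun e => e ⊆ U) := by
    intro e he
    rw [mem_filter] at he ⊢
    exact ⟨he.1, he.2.trans hWU⟩
  have := card_le_card h2
  omega

theorem sub_sq_div_le (L M : ℝ) (hL0 : 0 ≤ L) (hLM : L ≤ M) : L - L ^ 2 / M ≤ M - L := by
  rcases eq_or_lt_of_le (le_trans hL0 hLM) with h0 | h0
  · have : L = 0 := le_antisymm (by rw [h0]; exact hLM) hL0
    rw [this, ← h0]
    norm_num
  · have h1 : 2 * L - M ≤ L ^ 2 / M := by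
      rw [le_div_iff₀ h0]
      nlinarith [sq_nonneg (L - M)]
    linarith

theorem half_one (ε : ℝ) (hε : 0 < ε) (K : ℕ) : ∃ N : ℕ, ∀ n : ℕ, N ≤ n →
    ∀ H : Finset (Finset (Fin n)), (∀ e ∈ H, e.card = 3) →
      (∀ W : Finset (Fin n), W.card = 7 → (H.filter (fun e => e ⊆ W)).card < 4) →
      ∀ (U : Finset (Fin n)) (p : Fin n → Fin K),
        ∑ j, (links H U (cls p j) : ℝ) ^ 2 / ((U.card : ℝ) * ((cls p j).card : ℝ)) ≤
          (1 / 2) * (links H U univ : ℝ) + ε * (n : ℝ) ^ 2 := by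
  obtain ⟨N, hN⟩ := energy_sys (ε / 2) (by positivity) K
  obtain ⟨M, hM⟩ := exists_nat_gt (24 / ε)
  refine ⟨max N (max M 7), ?_⟩
  intro n hn H h3 h7 U p
  have hn1 : N ≤ n := le_trans (le_max_left _ _) hn
  have hn2 : M ≤ n := le_trans (le_trans (le_max_left _ _) (le_max_right _ _)) hn
  have hn3 : 7 ≤ n := le_trans (le_trans (le_max_right _ _) (le_max_right _ _)) hn
  obtain ⟨S, hS1, hS2, hS3⟩ := exists_sys' H h3 (small_of_seven hn3 H h7)
  have h := hN (Fin n) (by rw [Fintype.card_fin]; exact hn1) S U p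
  rw [Fintype.card_fin] at h hS2
  have hAind : ∀ x y, S.A x y ≤ ind H x y := by
    intro x y
    unfold ind
    rcases S.h01 x y with h0 | h0
    · rw [h0]
      split_ifs <;> norm_num
    · rw [h0, if_pos (hS1 x y h0)]
  have hdiff : ∑ x, ∑ y, (ind H x y - S.A x y) ≤ 6 * (n : ℝ) := by
    have e1 : ∑ x, ∑ y, (ind H x y - S.A x y) =
        (((univ : Finset (Fin n × Fin n)).filter (fun p => (p.1 ≠ p.2 ∧
          ∃ e ∈ H, p.1 ∈ e ∧ p.2 ∈ e) ∧ S.A p.1 p.2 = 0)).card : ℝ) := by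
      rw [card_filter]
      push_cast
      rw [Fintype.sum_prod_type]
      refine Finset.sum_congr rfl (fun x _ => Finset.sum_congr rfl (fun y _ => ?_))
      unfold ind
      rcases S.h01 x y with h0 | h0
      · by_cases hp : (x ≠ y ∧ ∃ e ∈ H, x ∈ e ∧ y ∈ e)
        · rw [if_pos hp, if_pos ⟨hp, h0⟩, h0]
          norm_num
        · rw [if_neg hp, if_neg (fun h' => hp h'.1), h0]
          norm_num
      · have hp := hS1 x y h0
        rw [if_pos hp, if_neg (fun h' => by rw [h0] at h'; norm_num at h'), h0]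
        norm_num
    rw [e1]
    exact_mod_cast hS2
  have hcnn : ∀ x y, 0 ≤ ind H x y - S.A x y := fun x y => sub_nonneg.mpr (hAind x y)
  set a : Fin K → ℝ := fun j => ∑ x ∈ U, ∑ y ∈ cls p j, S.A x y with ha
  set c : Fin K → ℝ := fun j => ∑ x ∈ U, ∑ y ∈ cls p j, (ind H x y - S.A x y) with hc
  have hLac : ∀ j, (links H U (cls p j) : ℝ) = a j + c j := by
    intro j
    rw [links_eq]
    simp only [ha, hc]
    rw [← Finset.sum_add_distrib]
    refine Finset.sum_congr rfl (fun x _ => ?_)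
    rw [← Finset.sum_add_distrib]
    exact Finset.sum_congr rfl (fun y _ => by ring)
  have ha0 : ∀ j, 0 ≤ a j := fun j =>
    Finset.sum_nonneg (fun x _ => Finset.sum_nonneg (fun y _ => S.A_nonneg x y))
  have hc0 : ∀ j, 0 ≤ c j := fun j =>
    Finset.sum_nonneg (fun x _ => Finset.sum_nonneg (fun y _ => hcnn x y))
  have hcsum : ∑ j, c j ≤ 6 * (n : ℝ) := by
    have e2 : ∑ j, c j = ∑ x ∈ U, ∑ y, (ind H x y - S.A x y) := by
      simp only [hc]
      rw [Finset.sum_comm]
      exact Finset.sum_congr rfl (fun x _ => sum_cls p (fun y => ind H x y - S.A x y))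
    rw [e2]
    exact le_trans (Finset.sum_le_univ_sum_of_nonneg
      (fun x => Finset.sum_nonneg (fun y _ => hcnn x y))) hdiff
  have hterm : ∀ j, (links H U (cls p j) : ℝ) ^ 2 / ((U.card : ℝ) * ((cls p j).card : ℝ)) ≤
      (a j) ^ 2 / ((U.card : ℝ) * ((cls p j).card : ℝ)) + 2 * c j := by
    intro j
    have hle := links_le H U (cls p j)
    rcases eq_or_lt_of_le (show (0 : ℝ) ≤ (U.card : ℝ) * ((cls p j).card : ℝ) by positivity)
      with h0 | h0
    · rw [← h0, div_zero, div_zero]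
      have := hc0 j
      linarith
    · rw [div_add' _ _ _ h0.ne', div_le_div_iff_of_pos_right h0]
      have e3 := hLac j
      have e4 := hc0 j
      have e5 := ha0 j
      nlinarith
  have hUs : ∑ x ∈ U, ∑ y, S.A x y ≤ (links H U univ : ℝ) := by
    rw [links_eq]
    exact Finset.sum_le_sum (fun x _ => Finset.sum_le_sum (fun y _ => hAind x y))
  have hn4 : 24 / ε < n := lt_of_lt_of_le hM (by exact_mod_cast hn2)
  have hnpos : (0 : ℝ) < n := lt_trans (by positivity) hn4
  have h24 : 24 < ε * n := by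
    rw [div_lt_iff₀ hε] at hn4
    linarith
  have hbig : 12 * (n : ℝ) ≤ ε / 2 * (n : ℝ) ^ 2 := by nlinarith
  calc ∑ j, (links H U (cls p j) : ℝ) ^ 2 / ((U.card : ℝ) * ((cls p j).card : ℝ))
      ≤ ∑ j, ((a j) ^ 2 / ((U.card : ℝ) * ((cls p j).card : ℝ)) + 2 * c j) :=
        Finset.sum_le_sum (fun j _ => hterm j)
    _ = ∑ j, (a j) ^ 2 / ((U.card : ℝ) * ((cls p j).card : ℝ)) + 2 * ∑ j, c j := by
        rw [Finset.sum_add_distrib, ← Finset.mul_sum]
    _ ≤ ((1 / 2) * ∑ x ∈ U, ∑ y, S.A x y + ε / 2 * (n : ℝ) ^ 2) + 2 * (6 * (n : ℝ)) := by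
        refine add_le_add h (mul_le_mul_of_nonneg_left hcsum (by norm_num))
    _ ≤ _ := by linarith

theorem half_two (ε : ℝ) (hε : 0 < ε) (K : ℕ) : ∃ N : ℕ, ∀ n : ℕ, N ≤ n →
    ∀ H : Finset (Finset (Fin n)), (∀ e ∈ H, e.card = 3) →
      (∀ W : Finset (Fin n), W.card = 7 → (H.filter (fun e => e ⊆ W)).card < 4) →
      ∀ (p : Fin n → Fin K) (T : Finset (Fin K × Fin K)),
        (H.card : ℝ) ≤ (1 / 3) * (dist H p T : ℝ) + ε * (n : ℝ) ^ 2 := by
  obtain ⟨N, hN⟩ := half_one (ε / (K + 1)) (by positivity) K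
  obtain ⟨M, hM⟩ := exists_nat_gt (2 / ε)
  refine ⟨max N (max M 7), ?_⟩
  intro n hn H h3 h7 p T
  have hn1 : N ≤ n := le_trans (le_max_left _ _) hn
  have hn2 : M ≤ n := le_trans (le_trans (le_max_left _ _) (le_max_right _ _)) hn
  have hn3 : 7 ≤ n := le_trans (le_trans (le_max_right _ _) (le_max_right _ _)) hn
  obtain ⟨S, hS1, hS2, hS3⟩ := exists_sys' H h3 (small_of_seven hn3 H h7)
  rw [Fintype.card_fin] at hS3
  have hAind : ∀ x y, S.A x y ≤ ind H x y := by
    intro x y
    unfold ind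
    rcases S.h01 x y with h0 | h0
    · rw [h0]
      split_ifs <;> norm_num
    · rw [h0, if_pos (hS1 x y h0)]
  have hHL : 6 * (H.card : ℝ) ≤ (links H univ univ : ℝ) + 6 * (n : ℝ) := by
    have : ∑ x, ∑ y, S.A x y ≤ (links H univ univ : ℝ) := by
      rw [links_eq]
      exact Finset.sum_le_sum (fun x _ => Finset.sum_le_sum (fun y _ => hAind x y))
    linarith
  have hone := fun i => hN n hn1 H h3 h7 (cls p i) p
  -- total
  have hLsum : ∑ i, ∑ j, (links H (cls p i) (cls p j) : ℝ) = (links H univ univ : ℝ) := by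
    have e1 : ∀ i, ∑ j, (links H (cls p i) (cls p j) : ℝ) = ∑ x ∈ cls p i, ∑ y, ind H x y := by
      intro i
      simp_rw [links_eq]
      rw [Finset.sum_comm]
      exact Finset.sum_congr rfl (fun x _ => sum_cls p (fun y => ind H x y))
    simp_rw [e1]
    rw [links_eq]
    exact sum_cls p (fun x => ∑ y, ind H x y)
  have hLi : ∑ i, (links H (cls p i) univ : ℝ) = (links H univ univ : ℝ) := by
    simp_rw [links_eq]
    exact sum_cls p (fun x => ∑ y, ind H x y)
  have hsum1 : ∑ i, ∑ j, (links H (cls p i) (cls p j) : ℝ) ^ 2 /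
      (((cls p i).card : ℝ) * ((cls p j).card : ℝ)) ≤
      (1 / 2) * (links H univ univ : ℝ) + ε * (n : ℝ) ^ 2 := by
    calc _ ≤ ∑ i, ((1 / 2) * (links H (cls p i) univ : ℝ) + ε / (K + 1) * (n : ℝ) ^ 2) :=
          Finset.sum_le_sum (fun i _ => hone i)
      _ = (1 / 2) * (links H univ univ : ℝ) + (K : ℝ) * (ε / (K + 1) * (n : ℝ) ^ 2) := by
          rw [Finset.sum_add_distrib, ← Finset.mul_sum, hLi, Finset.sum_const,
            Finset.card_univ, Fintype.card_fin, nsmul_eq_mul]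
      _ ≤ _ := by
          have h1 : (0 : ℝ) < K + 1 := by positivity
          have h2 : (K : ℝ) * (ε / (K + 1) * (n : ℝ) ^ 2) = (K / (K + 1)) * (ε * (n : ℝ) ^ 2) := by
            field_simp
          have h3' : (K : ℝ) / (K + 1) ≤ 1 := by
            rw [div_le_one h1]
            linarith
          have h4 : 0 ≤ ε * (n : ℝ) ^ 2 := by positivity
          rw [h2]
          nlinarith
  -- distance, cell by cell
  set D : Fin n → Fin n → ℝ := fun x y =>
    if ¬ ((x ≠ y ∧ ∃ e ∈ H, x ∈ e ∧ y ∈ e) ↔ (p x, p y) ∈ T) then 1 else 0 with hD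
  have hdist : (dist H p T : ℝ) = ∑ x, ∑ y, D x y := by
    unfold dist
    rw [card_filter]
    push_cast
    rw [Fintype.sum_prod_type]
  have hdist2 : (dist H p T : ℝ) = ∑ i, ∑ j, ∑ x ∈ cls p i, ∑ y ∈ cls p j, D x y := by
    rw [hdist]
    have e1 : ∀ i, ∑ j, ∑ x ∈ cls p i, ∑ y ∈ cls p j, D x y = ∑ x ∈ cls p i, ∑ y, D x y := by
      intro i
      rw [Finset.sum_comm]
      exact Finset.sum_congr rfl (fun x _ => sum_cls p (fun y => D x y))
    simp_rw [e1]
    exact (sum_cls p (fun x => ∑ y, D x y)).symm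
  have hcell : ∀ i j, (links H (cls p i) (cls p j) : ℝ) -
      (links H (cls p i) (cls p j) : ℝ) ^ 2 / (((cls p i).card : ℝ) * ((cls p j).card : ℝ)) ≤
      ∑ x ∈ cls p i, ∑ y ∈ cls p j, D x y := by
    intro i j
    have hLle := links_le H (cls p i) (cls p j)
    have hL0 : (0 : ℝ) ≤ (links H (cls p i) (cls p j) : ℝ) := Nat.cast_nonneg _
    have hc0 : (0 : ℝ) ≤ ((cls p i).card : ℝ) * ((cls p j).card : ℝ) := by positivity
    by_cases hT : (i, j) ∈ T
    · have e2 : ∑ x ∈ cls p i, ∑ y ∈ cls p j, D x y =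
          ((cls p i).card : ℝ) * ((cls p j).card : ℝ) - (links H (cls p i) (cls p j) : ℝ) := by
        rw [links_eq]
        have e3 : ((cls p i).card : ℝ) * ((cls p j).card : ℝ) =
            ∑ _x ∈ cls p i, ∑ _y ∈ cls p j, (1 : ℝ) := by simp
        rw [e3, ← Finset.sum_sub_distrib]
        refine Finset.sum_congr rfl (fun x hx => ?_)
        rw [← Finset.sum_sub_distrib]
        refine Finset.sum_congr rfl (fun y hy => ?_)
        have hx' : p x = i := (mem_filter.mp hx).2
        have hy' : p y = j := (mem_filter.mp hy).2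
        simp only [hD, ind, hx', hy', hT, iff_true]
        split_ifs <;> norm_num
      rw [e2]
      exact sub_sq_div_le _ _ hL0 hLle
    · have e2 : ∑ x ∈ cls p i, ∑ y ∈ cls p j, D x y = (links H (cls p i) (cls p j) : ℝ) := by
        rw [links_eq]
        refine Finset.sum_congr rfl (fun x hx => ?_)
        refine Finset.sum_congr rfl (fun y hy => ?_)
        have hx' : p x = i := (mem_filter.mp hx).2
        have hy' : p y = j := (mem_filter.mp hy).2
        simp only [hD, ind, hx', hy', hT, iff_false, not_not]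
      rw [e2]
      have : 0 ≤ (links H (cls p i) (cls p j) : ℝ) ^ 2 /
          (((cls p i).card : ℝ) * ((cls p j).card : ℝ)) := by positivity
      linarith
  have hsum2 : (links H univ univ : ℝ) - ∑ i, ∑ j, (links H (cls p i) (cls p j) : ℝ) ^ 2 /
      (((cls p i).card : ℝ) * ((cls p j).card : ℝ)) ≤ (dist H p T : ℝ) := by
    rw [hdist2, ← hLsum, ← Finset.sum_sub_distrib]
    refine Finset.sum_le_sum (fun i _ => ?_)
    rw [← Finset.sum_sub_distrib]
    exact Finset.sum_le_sum (fun j _ => hcell i j)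
  have hn4 : 2 / ε < n := lt_of_lt_of_le hM (by exact_mod_cast hn2)
  have hnpos : (0 : ℝ) < n := lt_trans (by positivity) hn4
  have h24 : 2 < ε * n := by
    rw [div_lt_iff₀ hε] at hn4
    linarith
  have hbig : 2 * (n : ℝ) ≤ ε * (n : ℝ) ^ 2 := by nlinarith
  linarith

end Pool.Agent.Helper18.SF
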