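import Pool.Agent.Helper18.SF.Main

set_option autoImplicit false

/-! Every bounded partition of the shadow has energy at most half its density. -/

namespace Pool.Agent.Helper18.SF

open Finset

section
variable {V : Type} [Fintype V] [DecidableEq V]

/-- Part `i` of the partition given by `p`. -/
def part {K : ℕ} (p : V → Fin K) (i : Fin K) : Finset V := univ.filter (fun x => p x = i)

theorem sum_part {K : ℕ} (p : V → Fin K) (g : V → ℝ) :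
    ∑ i, ∑ x ∈ part p i, g x = ∑ x, g x := by
  unfold part
  exact Finset.sum_fiberwise univ p g

theorem sq_div_le {U : Finset V} (g : V → ℝ) :
    (∑ x ∈ U, g x) ^ 2 / (U.card : ℝ) ≤ ∑ x ∈ U, (g x) ^ 2 := by
  by_cases h : U.card = 0
  · rw [h]
    simp only [Nat.cast_zero, div_zero]
    exact Finset.sum_nonneg (fun x _ => sq_nonneg _)
  · have hp : (0 : ℝ) < U.card := by exact_mod_cast Nat.pos_of_ne_zero h
    rw [div_le_iff₀ hp, mul_comm]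
    exact sq_sum_le_card_mul_sum_sq

theorem sq_div_div_le {U W : Finset V} (g : V → V → ℝ) :
    (∑ x ∈ U, ∑ z ∈ W, g x z) ^ 2 / ((U.card : ℝ) * (W.card : ℝ)) ≤
      (∑ z ∈ W, (∑ x ∈ U, g x z) ^ 2) / (U.card : ℝ) := by
  rw [Finset.sum_comm, mul_comm, ← div_div]
  exact div_le_div_of_nonneg_right (sq_div_le (fun z => ∑ x ∈ U, g x z)) (Nat.cast_nonneg _)

theorem sq_div_div_le' {U W : Finset V} (g : V → V → ℝ) :
    (∑ x ∈ U, ∑ z ∈ W, g x z) ^ 2 / ((U.card : ℝ) * (W.card : ℝ)) ≤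
      ∑ x ∈ U, ∑ z ∈ W, (g x z) ^ 2 := by
  refine le_trans (sq_div_div_le g) ?_
  rw [Finset.sum_div, Finset.sum_comm]
  exact Finset.sum_le_sum (fun z _ => sq_div_le (fun x => g x z))

theorem le_of_sq_le_sq_aux {a b : ℝ} (h : a ^ 2 ≤ b ^ 2) (hb : 0 ≤ b) : a ≤ b :=
  le_trans (le_abs_self a) (by
    have := sq_le_sq.mp h
    rwa [abs_of_nonneg hb] at this)

/-- The part orthogonal to the pattern partition is small on every set of rows. -/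
theorem rows_small (S : Sys V) (Z : Finset V) (θ : ℝ) (hθ : 0 ≤ θ)
    (h0 : ∀ u, q S.A (insert u Z) - q S.A Z ≤ θ * (Fintype.card V : ℝ) ^ 2) (U : Finset V) :
    (∑ z, (∑ x ∈ U, (S.A x z - ce (pat S.A Z) (S.A x) z)) ^ 2) / (U.card : ℝ) ≤
      Real.sqrt θ * (Fintype.card V : ℝ) ^ 2 := by
  set n : ℝ := (Fintype.card V : ℝ) with hn
  have hn0 : 0 ≤ n := Nat.cast_nonneg _
  set B : V → V → ℝ := fun x z => S.A x z - ce (pat S.A Z) (S.A x) z with hB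
  set Γ : V → V → ℝ := fun v u => ∑ z, B v z * B u z with hΓ
  have hcorr : ∀ u, ∑ v, (Γ v u) ^ 2 ≤ n * (θ * n ^ 2) := by
    intro u
    have h := corr S.A S.h01 Z univ (fun _ _ _ => by simp) u
    rw [Finset.card_univ] at h
    refine le_trans h ?_
    exact mul_le_mul_of_nonneg_left (h0 u) hn0
  have hexp : ∑ z, (∑ x ∈ U, B x z) ^ 2 = ∑ x ∈ U, ∑ y ∈ U, Γ x y := by
    calc ∑ z, (∑ x ∈ U, B x z) ^ 2 = ∑ z, ∑ x ∈ U, ∑ y ∈ U, B x z * B y z := by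
          refine Finset.sum_congr rfl (fun z _ => ?_)
          rw [sq, Finset.sum_mul_sum]
      _ = ∑ x ∈ U, ∑ z, ∑ y ∈ U, B x z * B y z := Finset.sum_comm
      _ = ∑ x ∈ U, ∑ y ∈ U, ∑ z, B x z * B y z :=
          Finset.sum_congr rfl (fun x _ => Finset.sum_comm)
      _ = _ := rfl
  have hcs : (∑ x ∈ U, ∑ y ∈ U, Γ x y) ^ 2 ≤ ((U.card : ℝ) * n ^ 2) ^ 2 * θ := by
    have h1 : (∑ x ∈ U, ∑ y ∈ U, Γ x y) ^ 2 ≤
        (U.card : ℝ) * ∑ x ∈ U, (∑ y ∈ U, Γ x y) ^ 2 := sq_sum_le_card_mul_sum_sq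
    have h2 : ∀ x, (∑ y ∈ U, Γ x y) ^ 2 ≤ (U.card : ℝ) * ∑ y ∈ U, (Γ x y) ^ 2 :=
      fun x => sq_sum_le_card_mul_sum_sq
    have h3 : ∑ x ∈ U, ∑ y ∈ U, (Γ x y) ^ 2 ≤ n * (n * (θ * n ^ 2)) := by
      calc ∑ x ∈ U, ∑ y ∈ U, (Γ x y) ^ 2 = ∑ y ∈ U, ∑ x ∈ U, (Γ x y) ^ 2 := Finset.sum_comm
        _ ≤ ∑ y, ∑ x ∈ U, (Γ x y) ^ 2 :=
            Finset.sum_le_univ_sum_of_nonneg (fun y => Finset.sum_nonneg (fun x _ => sq_nonneg _))
        _ ≤ ∑ y, ∑ x, (Γ x y) ^ 2 :=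
            Finset.sum_le_sum (fun y _ =>
              Finset.sum_le_univ_sum_of_nonneg (fun x => sq_nonneg _))
        _ ≤ ∑ _y : V, n * (θ * n ^ 2) := Finset.sum_le_sum (fun y _ => hcorr y)
        _ = n * (n * (θ * n ^ 2)) := by
            rw [Finset.sum_const, Finset.card_univ, nsmul_eq_mul]
    have hU : (0 : ℝ) ≤ U.card := Nat.cast_nonneg _
    calc (∑ x ∈ U, ∑ y ∈ U, Γ x y) ^ 2 ≤ (U.card : ℝ) * ∑ x ∈ U, (∑ y ∈ U, Γ x y) ^ 2 := h1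
      _ ≤ (U.card : ℝ) * ∑ x ∈ U, ((U.card : ℝ) * ∑ y ∈ U, (Γ x y) ^ 2) :=
          mul_le_mul_of_nonneg_left (Finset.sum_le_sum (fun x _ => h2 x)) hU
      _ = (U.card : ℝ) ^ 2 * ∑ x ∈ U, ∑ y ∈ U, (Γ x y) ^ 2 := by
          rw [← Finset.mul_sum]
          ring
      _ ≤ (U.card : ℝ) ^ 2 * (n * (n * (θ * n ^ 2))) :=
          mul_le_mul_of_nonneg_left h3 (sq_nonneg _)
      _ = _ := by ring
  have hle : ∑ x ∈ U, ∑ y ∈ U, Γ x y ≤ (U.card : ℝ) * n ^ 2 * Real.sqrt θ := by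
    refine le_of_sq_le_sq_aux ?_ (by positivity)
    rw [mul_pow, Real.sq_sqrt hθ]
    exact hcs
  by_cases hc : U.card = 0
  · rw [hc]
    simp only [Nat.cast_zero, div_zero]
    positivity
  · have hp : (0 : ℝ) < U.card := by exact_mod_cast Nat.pos_of_ne_zero hc
    rw [div_le_iff₀ hp]
    calc ∑ z, (∑ x ∈ U, (S.A x z - ce (pat S.A Z) (S.A x) z)) ^ 2
        = ∑ x ∈ U, ∑ y ∈ U, Γ x y := hexp
      _ ≤ _ := hle
      _ = _ := by ring

end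

end Pool.Agent.Helper18.SF
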