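import Pool.Agent.Helper18.SF.CE
import Pool.Agent.Helper18.SF.Twin1

set_option autoImplicit false

/-! The inequality with explicit errors. -/

namespace Pool.Agent.Helper18.SF

open Finset

variable {V : Type} [Fintype V] [DecidableEq V]

theorem sum_w_eq_ce (S : Sys V) (Z : Finset V) (x : V) :
    ∑ y, w S.A Z x y = ce (pat S.A Z) (fun z => ∑ y, S.A z y) x := by
  unfold w ce
  rw [← Finset.sum_div]
  congr 1
  rw [Finset.sum_comm]
  exact Finset.sum_congr rfl fun z _ => Finset.sum_congr rfl fun y _ => S.symm y z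

theorem Sys.sum_right (S : Sys V) (g : V → V → ℝ) :
    ∑ x, ∑ y, S.A x y * g x y = ∑ x, ∑ y, S.A x y * g y x := by
  rw [Finset.sum_comm]
  exact Finset.sum_congr rfl fun x _ => Finset.sum_congr rfl fun y _ => by rw [S.symm y x]

theorem Sys.sum_third (S : Sys V) (g : V → V → ℝ) :
    ∑ x, ∑ y, S.A x y * g x (S.f x y) = ∑ x, ∑ y, S.A x y * g x y :=
  Finset.sum_congr rfl fun x _ => S.sum_swap x (g x)

theorem Sys.sum_third' (S : Sys V) (g : V → V → ℝ) :
    ∑ x, ∑ y, S.A x y * g y (S.f x y) = ∑ x, ∑ y, S.A x y * g x y := by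
  rw [← S.sum_third g, Finset.sum_comm]
  refine Finset.sum_congr rfl fun x _ => Finset.sum_congr rfl fun y _ => ?_
  rcases S.h01 x y with h | h
  · rw [S.symm y x, h, zero_mul, zero_mul]
  · rw [S.symm y x, S.fs x y h]

/-- The inequality with explicit errors. -/
theorem explicit (S : Sys V) (Z : Finset V) (E1 E2 E3 : ℝ)
    (hE : ∑ x, (∑ y, w S.A Z x y) * ∑ y, (w S.A Z x y) ^ 2 ≤
      (1 / 2) * ∑ x, (∑ y, w S.A Z x y) * ∑ y, w S.A Z x y + E1)
    (hT : ∑ x, ∑ x', S.A x x' * ∑ y, w S.A Z x y * w S.A Z x' y ≤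
      ∑ x, ∑ x', S.A x x' * ∑ y, S.A y x * S.A y x' + E2)
    (hD : ∑ x, (∑ y, S.A x y) ^ 2 ≤ ∑ x, (∑ y, w S.A Z x y) ^ 2 + E3) :
    9 * (∑ x, (∑ y, w S.A Z x y) ^ 2) ^ 2 ≤ (∑ x, ∑ y, S.A x y) * (Fintype.card V : ℝ) *
      (3 * ∑ x, (∑ y, w S.A Z x y) ^ 2 + 3 * E1 + 6 * E2 + (3 / 2) * E3 +
        6 * ∑ x, ∑ y, S.A x y) := by
  classical
  set W : V → ℝ := fun x => ∑ y, w S.A Z x y with hW
  set d : V → ℝ := fun x => ∑ y, S.A x y with hd
  have hWce : ∀ x, W x = ce (pat S.A Z) d x := fun x => sum_w_eq_ce S Z x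
  have hWc : ∀ z z', pat S.A Z z = pat S.A Z z' → W z = W z' := by
    intro z z' h
    rw [hWce, hWce]
    exact ce_congr h
  -- averages
  have a1 : ∑ x, W x * ∑ y, (w S.A Z x y) ^ 2 = ∑ x, d x * ∑ y, (w S.A Z x y) ^ 2 := by
    have := sum_ce_mul (pat S.A Z) d (fun x => ∑ y, (w S.A Z x y) ^ 2) (fun z z' h => by
      refine Finset.sum_congr rfl fun y _ => ?_
      unfold w
      rw [ce_congr h])
    rw [← this]
    exact Finset.sum_congr rfl fun x _ => by rw [hWce]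
  have a2 : ∑ x, W x ^ 2 = ∑ x, d x * W x := by
    have := sum_ce_mul (pat S.A Z) d W hWc
    rw [← this]
    exact Finset.sum_congr rfl fun x _ => by rw [← hWce, sq]
  -- linear part
  have b1 : ∀ F : V → ℝ, ∑ x, ∑ y, S.A x y * F x = ∑ x, d x * F x := by
    intro F
    refine Finset.sum_congr rfl fun x _ => ?_
    rw [hd, Finset.sum_mul]
  have b2 : ∀ F : V → ℝ, ∑ x, ∑ y, S.A x y * F y = ∑ x, d x * F x := by
    intro F
    rw [← b1, S.sum_right fun _ y => F y]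
  have b3 : ∀ F : V → ℝ, ∑ x, ∑ y, S.A x y * F (S.f x y) = ∑ x, d x * F x := by
    intro F
    rw [← b2, S.sum_third fun _ y => F y]
  have c1 : ∑ x, ∑ y, S.A x y * (W x + W y + W (S.f x y)) = 3 * ∑ x, W x ^ 2 := by
    rw [a2]
    have : ∑ x, ∑ y, S.A x y * (W x + W y + W (S.f x y)) =
        ∑ x, ∑ y, S.A x y * W x + ∑ x, ∑ y, S.A x y * W y + ∑ x, ∑ y, S.A x y * W (S.f x y) := by
      simp only [← Finset.sum_add_distrib, mul_add]
    rw [this, b1, b2, b3]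
    ring
  -- Cauchy-Schwarz over the edges
  have c2 : (∑ x, ∑ y, S.A x y * (W x + W y + W (S.f x y))) ^ 2 ≤
      (∑ x, ∑ y, S.A x y) * ∑ x, ∑ y, S.A x y * (W x + W y + W (S.f x y)) ^ 2 := by
    rw [← Fintype.sum_prod_type', ← Fintype.sum_prod_type', ← Fintype.sum_prod_type']
    have h1 := Finset.sum_mul_sq_le_sq_mul_sq (univ : Finset (V × V)) (fun p => S.A p.1 p.2)
      (fun p => S.A p.1 p.2 * (W p.1 + W p.2 + W (S.f p.1 p.2)))
    have hA : ∀ p : V × V, S.A p.1 p.2 ^ 2 = S.A p.1 p.2 := fun p => by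
      rcases S.h01 p.1 p.2 with h | h <;> rw [h] <;> norm_num
    have h2 : ∀ p : V × V, S.A p.1 p.2 * (S.A p.1 p.2 * (W p.1 + W p.2 + W (S.f p.1 p.2))) =
        S.A p.1 p.2 * (W p.1 + W p.2 + W (S.f p.1 p.2)) := fun p => by
      rw [← mul_assoc, ← sq, hA]
    have h3 : ∀ p : V × V, (S.A p.1 p.2 * (W p.1 + W p.2 + W (S.f p.1 p.2))) ^ 2 =
        S.A p.1 p.2 * (W p.1 + W p.2 + W (S.f p.1 p.2)) ^ 2 := fun p => by
      rw [mul_pow, hA]
    simp only [h2, h3, hA] at h1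
    exact h1
  -- Cauchy-Schwarz over the vertices
  have c3 : ∀ x y, S.A x y * (W x + W y + W (S.f x y)) ^ 2 ≤ (Fintype.card V : ℝ) *
      (S.A x y * ∑ u, (w S.A Z x u + w S.A Z y u + w S.A Z (S.f x y) u) ^ 2) := by
    intro x y
    have h1 : W x + W y + W (S.f x y) = ∑ u, (w S.A Z x u + w S.A Z y u + w S.A Z (S.f x y) u) := by
      simp only [Finset.sum_add_distrib, hW]
    have h2 := Finset.sum_mul_sq_le_sq_mul_sq (univ : Finset V) (fun _ => (1 : ℝ))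
      (fun u => w S.A Z x u + w S.A Z y u + w S.A Z (S.f x y) u)
    simp only [one_mul, one_pow, Finset.sum_const, Finset.card_univ, nsmul_eq_mul, mul_one] at h2
    rw [h1]
    have h3 := S.A_nonneg x y
    calc _ ≤ S.A x y * ((Fintype.card V : ℝ) *
          ∑ u, (w S.A Z x u + w S.A Z y u + w S.A Z (S.f x y) u) ^ 2) :=
        mul_le_mul_of_nonneg_left h2 h3
      _ = _ := by ring
  -- expansion
  set Q : V → V → ℝ := fun x y => ∑ u, w S.A Z x u * w S.A Z y u with hQ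
  have hQs : ∀ x y, Q x y = Q y x := fun x y => Finset.sum_congr rfl fun u _ => mul_comm _ _
  have hQx : ∀ x, Q x x = ∑ u, (w S.A Z x u) ^ 2 := fun x => Finset.sum_congr rfl fun u _ => (sq _).symm
  have c4 : ∀ x y z, ∑ u, (w S.A Z x u + w S.A Z y u + w S.A Z z u) ^ 2 =
      Q x x + Q y y + Q z z + 2 * Q x y + 2 * Q x z + 2 * Q y z := by
    intro x y z
    simp only [hQ, Finset.mul_sum, ← Finset.sum_add_distrib]
    exact Finset.sum_congr rfl fun u _ => by ring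
  have c5 : ∑ x, ∑ y, S.A x y * ∑ u, (w S.A Z x u + w S.A Z y u + w S.A Z (S.f x y) u) ^ 2 =
      3 * ∑ x, d x * Q x x + 6 * ∑ x, ∑ y, S.A x y * Q x y := by
    have h1 : ∑ x, ∑ y, S.A x y * ∑ u, (w S.A Z x u + w S.A Z y u + w S.A Z (S.f x y) u) ^ 2 =
        ∑ x, ∑ y, S.A x y * Q x x + ∑ x, ∑ y, S.A x y * Q y y +
          ∑ x, ∑ y, S.A x y * Q (S.f x y) (S.f x y) + 2 * ∑ x, ∑ y, S.A x y * Q x y +
          2 * ∑ x, ∑ y, S.A x y * Q x (S.f x y) + 2 * ∑ x, ∑ y, S.A x y * Q y (S.f x y) := by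
      simp only [c4, Finset.mul_sum, ← Finset.sum_add_distrib]
      exact Finset.sum_congr rfl fun x _ => Finset.sum_congr rfl fun y _ => by ring
    rw [h1, b1 (fun x => Q x x), b2 (fun x => Q x x), b3 (fun x => Q x x), S.sum_third Q, S.sum_third' Q]
    ring
  -- triangles
  have d1 : ∑ x, ∑ x', S.A x x' * ∑ y, S.A y x * S.A y x' ≤ (1 / 4) * ∑ x, (d x) ^ 2 + ∑ x, d x := by
    have h1 : ∑ x, ∑ x', S.A x x' * ∑ y, S.A y x * S.A y x' =
        ∑ y, ∑ x, ∑ x', S.A y x * S.A y x' * S.A x x' := by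
      rw [Finset.sum_comm]
      have : ∀ x', ∑ x, S.A x x' * ∑ y, S.A y x * S.A y x' =
          ∑ y, ∑ x, S.A y x * S.A y x' * S.A x x' := by
        intro x'
        rw [Finset.sum_comm]
        refine Finset.sum_congr rfl fun x _ => ?_
        rw [Finset.mul_sum]
        exact Finset.sum_congr rfl fun y _ => by ring
      simp only [this]
      rw [Finset.sum_comm]
      refine Finset.sum_congr rfl fun y _ => ?_
      rw [Finset.sum_comm]
    rw [h1]
    calc _ ≤ ∑ y, ((d y) ^ 2 / 4 + d y) := Finset.sum_le_sum fun y _ => S.tri_ineq y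
      _ = _ := by
        rw [Finset.sum_add_distrib, ← Finset.sum_div]
        ring
  -- assembly
  have e1 : ∑ x, ∑ y, S.A x y * (W x + W y + W (S.f x y)) ^ 2 ≤ (Fintype.card V : ℝ) *
      (3 * ∑ x, d x * Q x x + 6 * ∑ x, ∑ y, S.A x y * Q x y) := by
    rw [← c5, Finset.mul_sum]
    refine Finset.sum_le_sum fun x _ => ?_
    rw [Finset.mul_sum]
    exact Finset.sum_le_sum fun y _ => c3 x y
  have e2 : ∑ x, d x * Q x x ≤ (1 / 2) * ∑ x, W x ^ 2 + E1 := by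
    have h1 : ∑ x, d x * Q x x = ∑ x, W x * ∑ y, (w S.A Z x y) ^ 2 := by
      rw [a1]
      exact Finset.sum_congr rfl fun x _ => by rw [hQx]
    rw [h1]
    refine hE.trans (le_of_eq ?_)
    congr 2
    exact Finset.sum_congr rfl fun x _ => (sq _).symm
  have e3 : ∑ x, ∑ y, S.A x y * Q x y ≤ (1 / 4) * (∑ x, W x ^ 2 + E3) + ∑ x, d x + E2 := by
    refine hT.trans ?_
    have : (1 / 4 : ℝ) * ∑ x, (d x) ^ 2 ≤ (1 / 4) * (∑ x, W x ^ 2 + E3) :=
      mul_le_mul_of_nonneg_left hD (by norm_num)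
    linarith [d1]
  have hm : 0 ≤ ∑ x, ∑ y, S.A x y := Finset.sum_nonneg fun x _ => Finset.sum_nonneg fun y _ => S.A_nonneg x y
  have hn : (0 : ℝ) ≤ Fintype.card V := Nat.cast_nonneg _
  have e4 : 9 * (∑ x, W x ^ 2) ^ 2 = (∑ x, ∑ y, S.A x y * (W x + W y + W (S.f x y))) ^ 2 := by
    rw [c1]
    ring
  rw [e4]
  refine c2.trans ?_
  rw [mul_assoc]
  refine mul_le_mul_of_nonneg_left (e1.trans (mul_le_mul_of_nonneg_left ?_ hn)) hm
  have hdm : ∑ x, d x = ∑ x, ∑ y, S.A x y := rfl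
  linarith

end Pool.Agent.Helper18.SF
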