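import Pool.Agent.Helper18.SF.Defs

set_option autoImplicit false

/-! Conditional expectations with respect to a colouring of a finite set. -/

namespace Pool.Agent.Helper18.SF

open Finset

variable {V : Type} [Fintype V] {α β : Type} [DecidableEq α] [DecidableEq β]

theorem ce_nonneg (c : V → α) (g : V → ℝ) (hg : ∀ z, 0 ≤ g z) (z : V) : 0 ≤ ce c g z :=
  div_nonneg (Finset.sum_nonneg (fun z' _ => hg z')) (Nat.cast_nonneg _)

theorem ce_le_one (c : V → α) (g : V → ℝ) (hg : ∀ z, g z ≤ 1) (z : V) : ce c g z ≤ 1 := by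
  unfold ce
  rw [div_le_one (cel_card_pos c z)]
  calc ∑ z' ∈ cel c z, g z' ≤ ∑ _z' ∈ cel c z, (1 : ℝ) := Finset.sum_le_sum (fun z' _ => hg z')
    _ = _ := by simp

/-- The conditional expectation has the same integral against functions constant on cells. -/
theorem sum_ce_mul (c : V → α) (g h : V → ℝ) (hh : ∀ z z', c z = c z' → h z = h z') :
    ∑ z, ce c g z * h z = ∑ z, g z * h z := by
  have h1 : ∀ x, ce c g x * h x = ∑ y, if c y = c x then g y * h x / ((cel c x).card : ℝ) else 0 := by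
    intro x
    rw [← sum_filter]
    unfold ce
    rw [div_mul_eq_mul_div, sum_mul, sum_div]
    rfl
  rw [sum_congr rfl fun x _ => h1 x, sum_comm]
  refine sum_congr rfl fun y _ => ?_
  have h2 : ∀ x, (if c y = c x then g y * h x / ((cel c x).card : ℝ) else 0) =
      if c x = c y then g y * h y / ((cel c y).card : ℝ) else 0 := by
    intro x
    by_cases hxy : c y = c x
    · rw [if_pos hxy, if_pos hxy.symm, hh x y hxy.symm, cel_congr hxy.symm]
    · rw [if_neg hxy, if_neg (fun e => hxy e.symm)]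
  rw [sum_congr rfl fun x _ => h2 x, ← sum_filter, sum_const, nsmul_eq_mul]
  have h3 : ((univ.filter fun x => c x = c y).card : ℝ) = ((cel c y).card : ℝ) := rfl
  rw [h3]
  have h4 : ((cel c y).card : ℝ) ≠ 0 := (cel_card_pos c y).ne'
  field_simp

/-- The same over a set which is a union of cells. -/
theorem sum_ce_mul_on (c : V → α) (g h : V → ℝ) (hh : ∀ z z', c z = c z' → h z = h z')
    (T : Finset V) (hT : ∀ z z', c z = c z' → (z ∈ T ↔ z' ∈ T)) :
    ∑ z ∈ T, ce c g z * h z = ∑ z ∈ T, g z * h z := by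
  classical
  have h1 := sum_ce_mul c g (fun z => if z ∈ T then h z else 0) (by
    intro z z' e
    by_cases hz : z ∈ T
    · rw [if_pos hz, if_pos ((hT z z' e).1 hz), hh z z' e]
    · rw [if_neg hz, if_neg fun h' => hz ((hT z z' e).2 h')])
  have h2 : ∀ k : V → ℝ, ∑ z, k z * (if z ∈ T then h z else 0) = ∑ z ∈ T, k z * h z := by
    intro k
    rw [← sum_filter_add_sum_filter_not univ (fun z => z ∈ T)]
    rw [sum_congr rfl (g := fun z => k z * h z) (fun z hz => by rw [if_pos (mem_filter.1 hz).2]),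
      sum_eq_zero (s := univ.filter fun z => ¬ z ∈ T) (fun z hz => by rw [if_neg (mem_filter.1 hz).2, mul_zero]),
      add_zero]
    refine sum_congr ?_ fun _ _ => rfl
    ext z
    simp
  rw [h2, h2] at h1
  exact h1

theorem sum_ce (c : V → α) (g : V → ℝ) : ∑ z, ce c g z = ∑ z, g z := by
  have := sum_ce_mul c g (fun _ => 1) (fun _ _ _ => rfl)
  simpa using this

/-- Number of cells. -/
theorem sum_inv_card (c : V → α) : ∑ z, (1 : ℝ) / ((cel c z).card : ℝ) = ((univ.image c).card : ℝ) := by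
  classical
  rw [← sum_fiberwise_of_maps_to (s := univ) (t := univ.image c) (g := c) fun z _ => mem_image_of_mem c (mem_univ z)]
  rw [sum_congr rfl (g := fun _ => (1 : ℝ))]
  · simp
  · intro b hb
    obtain ⟨z, _, rfl⟩ := mem_image.1 hb
    rw [sum_congr rfl (g := fun _ => (1 : ℝ) / ((cel c z).card : ℝ))]
    · rw [sum_const, nsmul_eq_mul]
      have h3 : ((univ.filter fun x => c x = c z).card : ℝ) = ((cel c z).card : ℝ) := rfl
      rw [h3, mul_one_div, div_self (cel_card_pos c z).ne']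
    · intro y hy
      rw [cel_congr (mem_filter.1 hy).2]

/-- Pythagoras: `c'` refines `c`. -/
theorem pyth (c : V → α) (c' : V → β) (hr : ∀ z z', c' z = c' z' → c z = c z') (g : V → ℝ) :
    ∑ z, (ce c' g z - ce c g z) ^ 2 = ∑ z, (ce c' g z) ^ 2 - ∑ z, (ce c g z) ^ 2 := by
  have h1 : ∑ x, ce c' g x * ce c g x = ∑ x, g x * ce c g x :=
    sum_ce_mul c' g _ (fun x y h => ce_congr (hr x y h))
  have h2 : ∑ x, ce c g x * ce c g x = ∑ x, g x * ce c g x :=
    sum_ce_mul c g _ (fun x y h => ce_congr h)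
  have h3 : ∀ x, (ce c' g x - ce c g x) ^ 2 = ce c' g x ^ 2 - 2 * (ce c' g x * ce c g x) + ce c g x * ce c g x := by
    intro x
    ring
  rw [sum_congr rfl fun x _ => h3 x, sum_add_distrib, sum_sub_distrib, ← mul_sum, h1, h2]
  have h4 : ∑ x, ce c g x ^ 2 = ∑ x, g x * ce c g x := by
    rw [← h2]
    exact sum_congr rfl fun x _ => by ring
  rw [h4]
  ring

theorem sum_sq_ce_le (c : V → α) (g : V → ℝ) : ∑ z, (ce c g z) ^ 2 ≤ ∑ z, (g z) ^ 2 := by
  have h1 : ∑ x, ce c g x * ce c g x = ∑ x, g x * ce c g x :=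
    sum_ce_mul c g _ (fun x y h => ce_congr h)
  have h3 : 0 ≤ ∑ x, (g x - ce c g x) ^ 2 := sum_nonneg fun x _ => sq_nonneg _
  have h4 : ∑ x, (g x - ce c g x) ^ 2 = ∑ x, g x ^ 2 - 2 * ∑ x, g x * ce c g x + ∑ x, ce c g x * ce c g x := by
    rw [mul_sum, ← sum_sub_distrib, ← sum_add_distrib]
    exact sum_congr rfl fun x _ => by ring
  have h5 : ∑ x, ce c g x ^ 2 = ∑ x, ce c g x * ce c g x := sum_congr rfl fun x _ => by ring
  rw [h4] at h3
  rw [h5]
  linarith

end Pool.Agent.Helper18.SF
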