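import Mathlib

set_option autoImplicit false

/-! Definitions for the bound `ex(n,7,4) <= (1/18 + o(1)) n^2`. -/

namespace Pool.Agent.Helper18.SF

open Finset

section ce
variable {V : Type} [Fintype V] {α : Type} [DecidableEq α]

/-- The cell of `z` under the colouring `c`. -/
def cel (c : V → α) (z : V) : Finset V := univ.filter (fun z' => c z' = c z)

/-- The average of `g` over the cell of `z`. -/
noncomputable def ce (c : V → α) (g : V → ℝ) (z : V) : ℝ :=
  (∑ z' ∈ cel c z, g z') / ((cel c z).card : ℝ)

theorem mem_cel {c : V → α} {z z' : V} : z' ∈ cel c z ↔ c z' = c z := by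
  simp [cel]

theorem self_mem_cel (c : V → α) (z : V) : z ∈ cel c z := by
  simp [cel]

theorem cel_card_pos (c : V → α) (z : V) : 0 < ((cel c z).card : ℝ) := by
  have : 0 < (cel c z).card := Finset.card_pos.mpr ⟨z, self_mem_cel c z⟩
  exact_mod_cast this

theorem cel_congr {c : V → α} {z z' : V} (h : c z = c z') : cel c z = cel c z' := by
  simp [cel, h]

theorem ce_congr {c : V → α} {g : V → ℝ} {z z' : V} (h : c z = c z') :
    ce c g z = ce c g z' := by
  unfold ce
  rw [cel_congr h]

theorem card_mul_ce (c : V → α) (g : V → ℝ) (z : V) :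
    ((cel c z).card : ℝ) * ce c g z = ∑ z' ∈ cel c z, g z' := by
  unfold ce
  have := cel_card_pos c z
  field_simp

end ce

variable {V : Type} [Fintype V] [DecidableEq V]

/-- Adjacency pattern of `z` on `Z`. -/
noncomputable def pat (A : V → V → ℝ) (Z : Finset V) (z : V) : Finset V :=
  Z.filter (fun u => A u z = 1)

/-- The energy of the partition given by the patterns on `Z`. -/
noncomputable def q (A : V → V → ℝ) (Z : Finset V) : ℝ :=
  ∑ v, ∑ z, (ce (pat A Z) (A v) z) ^ 2

/-- `w A Z x y` is the density of the neighbourhood of `y` in the cell of `x`. -/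
noncomputable def w (A : V → V → ℝ) (Z : Finset V) (x y : V) : ℝ :=
  ce (pat A Z) (A y) x

/-- Shadow of a linear 3-graph without four edges on seven vertices, with the third vertex map. -/
structure Sys (V : Type) where
  A : V → V → ℝ
  f : V → V → V
  h01 : ∀ x y, A x y = 0 ∨ A x y = 1
  symm : ∀ x y, A x y = A y x
  irr : ∀ x, A x x = 0
  fs : ∀ x y, A x y = 1 → f x y = f y x
  f1 : ∀ x y, A x y = 1 → A x (f x y) = 1
  f2 : ∀ x y, A x y = 1 → f x (f x y) = y
  one : ∀ v x x', A v x = 1 → A v x' = 1 → x ≠ x' → x' ≠ f v x →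
    A x x' + A x (f v x') + A (f v x) x' + A (f v x) (f v x') ≤ 1

end Pool.Agent.Helper18.SF
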