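import Pool.Agent.Helper18.SF.Ener

set_option autoImplicit false

/-! The energy inequality for a set against a bounded partition. -/

namespace Pool.Agent.Helper18.SF

open Finset

section
variable {V : Type} [Fintype V] [DecidableEq V]

/-- Averaged degrees against degrees on a set. -/
theorem deg_on (S : Sys V) (Z : Finset V) (r t : ℝ) (hr : 0 ≤ r) (ht : 0 ≤ t) (hrt : r ≤ t ^ 2)
    (h0 : ∀ u, q S.A (insert u Z) - q S.A Z ≤ r ^ 2 * (Fintype.card V : ℝ) ^ 2) (U : Finset V) :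
    ∑ x ∈ U, ∑ y, w S.A Z x y ≤ ∑ x ∈ U, ∑ y, S.A x y + t * (Fintype.card V : ℝ) ^ 2 := by
  set n : ℝ := (Fintype.card V : ℝ) with hn
  have hn0 : 0 ≤ n := Nat.cast_nonneg _
  have hs := rows_small S Z (r ^ 2) (by positivity) h0 (univ : Finset V)
  rw [Real.sqrt_sq hr, Finset.card_univ, ← hn] at hs
  set D : V → ℝ := fun z => ∑ x, (S.A x z - ce (pat S.A Z) (S.A x) z) with hD
  have h1 : ∑ z, (D z) ^ 2 ≤ t ^ 2 * n ^ 3 := by
    rcases eq_or_lt_of_le hn0 with h | h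
    · have hc : Fintype.card V = 0 := by
        have h' := h.symm
        rw [hn] at h'
        exact_mod_cast h'
      have : IsEmpty V := Fintype.card_eq_zero_iff.mp hc
      simp only [Finset.univ_eq_empty, Finset.sum_empty]
      positivity
    · rw [div_le_iff₀ h] at hs
      calc ∑ z, (D z) ^ 2 ≤ r * n ^ 2 * n := hs
        _ ≤ t ^ 2 * n ^ 2 * n := by
            have : 0 ≤ n ^ 2 * n := by positivity
            nlinarith
        _ = _ := by ring
  have h2 : (∑ x ∈ U, D x) ^ 2 ≤ (t * n ^ 2) ^ 2 := by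
    calc (∑ x ∈ U, D x) ^ 2 ≤ (U.card : ℝ) * ∑ x ∈ U, (D x) ^ 2 := sq_sum_le_card_mul_sum_sq
      _ ≤ n * ∑ x, (D x) ^ 2 := by
          have hU : (U.card : ℝ) ≤ n := by
            rw [hn]
            exact_mod_cast Finset.card_le_univ U
          have hS : ∑ x ∈ U, (D x) ^ 2 ≤ ∑ x, (D x) ^ 2 :=
            Finset.sum_le_univ_sum_of_nonneg (fun x => sq_nonneg _)
          exact mul_le_mul hU hS (Finset.sum_nonneg (fun x _ => sq_nonneg _)) hn0
      _ ≤ n * (t ^ 2 * n ^ 3) := mul_le_mul_of_nonneg_left h1 hn0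
      _ = _ := by ring
  have h3 : -(∑ x ∈ U, D x) ≤ t * n ^ 2 := by
    refine le_of_sq_le_sq_aux ?_ (by positivity)
    rw [neg_sq]
    exact h2
  have h4 : ∑ x ∈ U, ∑ y, w S.A Z x y = ∑ x ∈ U, ∑ y, S.A x y - ∑ x ∈ U, D x := by
    rw [← Finset.sum_sub_distrib]
    refine Finset.sum_congr rfl (fun x _ => ?_)
    simp only [hD]
    rw [Finset.sum_sub_distrib]
    have : ∑ y, S.A x y = ∑ y, S.A y x := Finset.sum_congr rfl (fun y _ => S.symm x y)
    rw [this]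
    simp only [w]
    ring
  rw [h4]
  linarith

theorem sq_add_le_eta (g b η : ℝ) (hη : 0 < η) :
    (g + b) ^ 2 ≤ (1 + η) * g ^ 2 + (1 + 1 / η) * b ^ 2 := by
  have h : 0 ≤ (η * g - b) ^ 2 / η := by positivity
  have e : (1 + η) * g ^ 2 + (1 + 1 / η) * b ^ 2 - (g + b) ^ 2 = (η * g - b) ^ 2 / η := by
    field_simp
    ring
  linarith

theorem energy_core (S : Sys V) (Z : Finset V) (r η : ℝ) (hr : 0 ≤ r) (hη : 0 < η)
    (h0 : ∀ u, q S.A (insert u Z) - q S.A Z ≤ r ^ 2 * (Fintype.card V : ℝ) ^ 2) (U : Finset V)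
    (K : ℕ) (p : V → Fin K) :
    ∑ j, (∑ x ∈ U, ∑ y ∈ part p j, S.A x y) ^ 2 / ((U.card : ℝ) * ((part p j).card : ℝ)) ≤
      (1 + η) * ∑ x ∈ U, ∑ y, (w S.A Z x y) ^ 2 +
        (1 + 1 / η) * (K * r) * (Fintype.card V : ℝ) ^ 2 := by
  set n : ℝ := (Fintype.card V : ℝ) with hn
  set g : Fin K → ℝ := fun j => ∑ y ∈ part p j, ∑ x ∈ U, w S.A Z x y with hg
  set b : Fin K → ℝ := fun j => ∑ y ∈ part p j, ∑ x ∈ U,
    (S.A y x - ce (pat S.A Z) (S.A y) x) with hb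
  have hab : ∀ j, ∑ x ∈ U, ∑ y ∈ part p j, S.A x y = g j + b j := by
    intro j
    simp only [hg, hb]
    rw [Finset.sum_comm, ← Finset.sum_add_distrib]
    refine Finset.sum_congr rfl (fun y _ => ?_)
    rw [← Finset.sum_add_distrib]
    refine Finset.sum_congr rfl (fun x _ => ?_)
    rw [S.symm x y]
    simp only [w]
    ring
  have hden : ∀ j, (U.card : ℝ) * ((part p j).card : ℝ) =
      ((part p j).card : ℝ) * (U.card : ℝ) := fun j => mul_comm _ _
  have hg1 : ∀ j, (g j) ^ 2 / ((U.card : ℝ) * ((part p j).card : ℝ)) ≤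
      ∑ y ∈ part p j, ∑ x ∈ U, (w S.A Z x y) ^ 2 := by
    intro j
    rw [hden]
    exact sq_div_div_le' (fun y x => w S.A Z x y)
  have hb1 : ∀ j, (b j) ^ 2 / ((U.card : ℝ) * ((part p j).card : ℝ)) ≤ r * n ^ 2 := by
    intro j
    rw [hden]
    refine le_trans (sq_div_div_le (fun y x => S.A y x - ce (pat S.A Z) (S.A y) x)) ?_
    have hs := rows_small S Z (r ^ 2) (by positivity) h0 (part p j)
    rw [Real.sqrt_sq hr] at hs
    refine le_trans ?_ hs
    refine div_le_div_of_nonneg_right ?_ (Nat.cast_nonneg _)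
    exact Finset.sum_le_univ_sum_of_nonneg (fun x => sq_nonneg _)
  have hterm : ∀ j, (∑ x ∈ U, ∑ y ∈ part p j, S.A x y) ^ 2 /
      ((U.card : ℝ) * ((part p j).card : ℝ)) ≤
      (1 + η) * (∑ y ∈ part p j, ∑ x ∈ U, (w S.A Z x y) ^ 2) + (1 + 1 / η) * (r * n ^ 2) := by
    intro j
    rw [hab]
    have hd : 0 ≤ (U.card : ℝ) * ((part p j).card : ℝ) := by positivity
    calc (g j + b j) ^ 2 / ((U.card : ℝ) * ((part p j).card : ℝ))
        ≤ ((1 + η) * (g j) ^ 2 + (1 + 1 / η) * (b j) ^ 2) /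
            ((U.card : ℝ) * ((part p j).card : ℝ)) :=
          div_le_div_of_nonneg_right (sq_add_le_eta _ _ _ hη) hd
      _ = (1 + η) * ((g j) ^ 2 / ((U.card : ℝ) * ((part p j).card : ℝ))) +
            (1 + 1 / η) * ((b j) ^ 2 / ((U.card : ℝ) * ((part p j).card : ℝ))) := by
          rw [add_div, mul_div_assoc, mul_div_assoc]
      _ ≤ _ := by
          refine add_le_add (mul_le_mul_of_nonneg_left (hg1 j) (by positivity))
            (mul_le_mul_of_nonneg_left (hb1 j) (by positivity))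
  calc ∑ j, (∑ x ∈ U, ∑ y ∈ part p j, S.A x y) ^ 2 / ((U.card : ℝ) * ((part p j).card : ℝ))
      ≤ ∑ j, ((1 + η) * (∑ y ∈ part p j, ∑ x ∈ U, (w S.A Z x y) ^ 2) +
          (1 + 1 / η) * (r * n ^ 2)) := Finset.sum_le_sum (fun j _ => hterm j)
    _ = (1 + η) * ∑ j, ∑ y ∈ part p j, ∑ x ∈ U, (w S.A Z x y) ^ 2 +
          (K : ℝ) * ((1 + 1 / η) * (r * n ^ 2)) := by
        rw [Finset.sum_add_distrib, ← Finset.mul_sum, Finset.sum_const, Finset.card_univ,
          Fintype.card_fin, nsmul_eq_mul]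
    _ = _ := by
        rw [sum_part p (fun y => ∑ x ∈ U, (w S.A Z x y) ^ 2), Finset.sum_comm]
        ring

end

theorem energy_sys (ε : ℝ) (hε : 0 < ε) (K : ℕ) : ∃ N : ℕ, ∀ (V : Type) [Fintype V]
    [DecidableEq V], N ≤ Fintype.card V → ∀ S : Sys V, ∀ (U : Finset V) (p : V → Fin K),
      ∑ j, (∑ x ∈ U, ∑ y ∈ part p j, S.A x y) ^ 2 / ((U.card : ℝ) * ((part p j).card : ℝ)) ≤
        (1 / 2) * ∑ x ∈ U, ∑ y, S.A x y + ε * (Fintype.card V : ℝ) ^ 2 := by
  set δ : ℝ := min ε 1 with hδdef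
  have hδ : 0 < δ := lt_min hε one_pos
  have hδ1 : δ ≤ 1 := min_le_right _ _
  have hδε : δ ≤ ε := min_le_left _ _
  set κ : ℝ := δ / 16 with hκdef
  have hκ : 0 < κ := by positivity
  set t : ℝ := δ ^ 2 / (64 * (K + 1)) with htdef
  have ht : 0 < t := by positivity
  set r : ℕ → ℝ := fun k => min (t ^ 2) (κ * δ / (16 * 2 ^ k)) with hr
  have hrpos : ∀ k, 0 < r k := fun k => by
    simp only [hr]
    exact lt_min (by positivity) (by positivity)
  obtain ⟨M, hM⟩ := two_scale ((κ * δ / 32) ^ 2) (by positivity) (fun k => (r k) ^ 2)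
    (fun k => pow_pos (hrpos k) 2)
  obtain ⟨N, hN⟩ := exists_nat_gt (8 * 2 ^ M / δ)
  refine ⟨N + 1, ?_⟩
  intro V _ _ hcard S U p
  set n : ℝ := (Fintype.card V : ℝ) with hn
  have hnN : (N : ℝ) + 1 ≤ n := by
    rw [hn]
    exact_mod_cast hcard
  have hnpos : 0 < n := by
    have : (0 : ℝ) ≤ N := Nat.cast_nonneg _
    linarith
  have hnbig : 8 * 2 ^ M ≤ δ * n := by
    have h1 : 8 * 2 ^ M / δ < n := by linarith
    rw [div_lt_iff₀ hδ] at h1
    linarith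
  obtain ⟨Z, Z', hZZ, hZM, h0, h1, h2⟩ := hM V S.A S.h01
  have hs1 : Real.sqrt ((κ * δ / 32) ^ 2) = κ * δ / 32 := Real.sqrt_sq (by positivity)
  have hs2 : ∀ k, Real.sqrt ((r k) ^ 2) = r k := fun k => Real.sqrt_sq (hrpos k).le
  have hX := dev_bound S Z Z' hZZ ((κ * δ / 32) ^ 2) ((r Z.card) ^ 2) (by positivity)
    (by positivity) h1 h2
  rw [hs1, hs2] at hX
  have hX2 : (2 ^ Z.card * r Z.card + 2 * (κ * δ / 32)) * (Fintype.card V : ℝ) ^ 2 ≤
      κ * δ / 8 * n ^ 2 := by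
    have h5 : r Z.card ≤ κ * δ / (16 * 2 ^ Z.card) := min_le_right _ _
    have h6 : (2 : ℝ) ^ Z.card * r Z.card ≤ κ * δ / 16 := by
      calc (2 : ℝ) ^ Z.card * r Z.card ≤ 2 ^ Z.card * (κ * δ / (16 * 2 ^ Z.card)) :=
            mul_le_mul_of_nonneg_left h5 (by positivity)
        _ = κ * δ / 16 := by
            have : (2 : ℝ) ^ Z.card ≠ 0 := by positivity
            field_simp
    rw [← hn]
    have h7 : 0 ≤ n ^ 2 := by positivity
    nlinarith
  have hX3 := le_trans hX hX2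
  -- weights
  set l : V → ℝ := ce (pat S.A Z) (fun x => if x ∈ U then 1 else 0) with hl
  have hl0 : ∀ x, 0 ≤ l x := ce_nonneg _ _ (fun z => by split_ifs <;> norm_num)
  have hl1 : ∀ x, l x ≤ 1 := ce_le_one _ _ (fun z => by split_ifs <;> norm_num)
  have hlc : ∀ z z', pat S.A Z z = pat S.A Z z' → l z = l z' := fun z z' h => ce_congr h
  have hE := twin S Z κ (κ * δ / 8 * n ^ 2) hκ hX3 l hl0 1 zero_le_one hl1 hlc
  have hsum : ∀ h : V → ℝ, (∀ z z', pat S.A Z z = pat S.A Z z' → h z = h z') →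
      ∑ x, l x * h x = ∑ x ∈ U, h x := by
    intro h hh
    rw [hl, sum_ce_mul (pat S.A Z) _ h hh]
    simp [Finset.sum_ite_mem]
  have hec : ∀ z z', pat S.A Z z = pat S.A Z z' →
      ∑ y, (w S.A Z z y) ^ 2 = ∑ y, (w S.A Z z' y) ^ 2 := fun z z' h =>
    Finset.sum_congr rfl (fun y _ => by rw [w_congr S.A Z h y])
  have hdc : ∀ z z', pat S.A Z z = pat S.A Z z' →
      ∑ y, w S.A Z z y = ∑ y, w S.A Z z' y := fun z z' h =>
    Finset.sum_congr rfl (fun y _ => by rw [w_congr S.A Z h y])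
  rw [hsum _ hec, hsum _ hdc] at hE
  have hdeg := deg_on S Z (r 0) t (hrpos 0).le ht.le (min_le_left _ _) h0 U
  have hcore := energy_core S Z (r 0) (δ / 8) (hrpos 0).le (by positivity) h0 U K p
  have hee : ∑ x ∈ U, ∑ y, (w S.A Z x y) ^ 2 ≤ n ^ 2 := by
    calc ∑ x ∈ U, ∑ y, (w S.A Z x y) ^ 2 ≤ ∑ x, ∑ y, (w S.A Z x y) ^ 2 :=
          Finset.sum_le_univ_sum_of_nonneg
            (fun x => Finset.sum_nonneg (fun y _ => sq_nonneg _))
      _ ≤ ∑ _x : V, ∑ _y : V, (1 : ℝ) := by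
          refine Finset.sum_le_sum (fun x _ => Finset.sum_le_sum (fun y _ => ?_))
          have h8 := w_nonneg S Z x y
          have h9 := w_le_one S Z x y
          nlinarith
      _ = n ^ 2 := by simp [hn, sq]
  have h2M : (2 : ℝ) ^ Z.card ≤ 2 ^ M := pow_le_pow_right₀ (by norm_num) hZM
  have hn2 : 0 < n ^ 2 := by positivity
  have e1 : κ * δ / 8 * n ^ 2 / κ = δ / 8 * n ^ 2 := by field_simp
  rw [e1] at hE
  have e2 : n * 2 ^ Z.card / 2 ≤ δ / 16 * n ^ 2 := by nlinarith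
  have e3 : (1 + 1 / (δ / 8)) * (K * r 0) ≤ δ / 8 := by
    have h10 : r 0 ≤ t ^ 2 := min_le_left _ _
    have h11 : (0 : ℝ) ≤ K := Nat.cast_nonneg _
    have h12 : (1 + 1 / (δ / 8)) = (δ + 8) / δ := by field_simp
    rw [h12, div_mul_eq_mul_div, div_le_iff₀ hδ]
    have h13 : (K : ℝ) * r 0 ≤ δ ^ 4 / 4096 := by
      have h14 : (K : ℝ) * t ^ 2 ≤ δ ^ 4 / 4096 := by
        rw [htdef]
        have h15 : (0 : ℝ) < K + 1 := by positivity
        rw [div_pow, mul_div_assoc']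
        rw [div_le_div_iff₀ (by positivity) (by norm_num)]
        have h16 : (K : ℝ) ≤ (K + 1) ^ 2 := by nlinarith
        have h17 : 0 ≤ (δ ^ 2) ^ 2 := by positivity
        have h18 : (64 * ((K : ℝ) + 1)) ^ 2 = 4096 * (K + 1) ^ 2 := by ring
        rw [h18]
        nlinarith
      nlinarith
    have h19 : 0 ≤ (K : ℝ) * r 0 := mul_nonneg h11 (hrpos 0).le
    have h20 : δ ^ 4 ≤ δ ^ 2 := by
      have : δ ^ 2 ≤ 1 := by nlinarith
      nlinarith [sq_nonneg δ]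
    nlinarith
  have e4 : t ≤ δ / 64 := by
    rw [htdef, div_le_div_iff₀ (by positivity) (by norm_num)]
    have h11 : (0 : ℝ) ≤ K := Nat.cast_nonneg _
    nlinarith [mul_nonneg h11 hδ.le]
  have e5 : (1 + 1 / (δ / 8)) * (K * r 0) * n ^ 2 ≤ δ / 8 * n ^ 2 :=
    mul_le_mul_of_nonneg_right e3 hn2.le
  have e6 : t * n ^ 2 ≤ δ / 64 * n ^ 2 := mul_le_mul_of_nonneg_right e4 hn2.le
  have e7 : κ * n ^ 2 = δ / 16 * n ^ 2 := by rw [hκdef]
  have e8 : δ / 8 * (∑ x ∈ U, ∑ y, (w S.A Z x y) ^ 2) ≤ δ / 8 * n ^ 2 :=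
    mul_le_mul_of_nonneg_left hee (by positivity)
  have e9 : δ * n ^ 2 ≤ ε * n ^ 2 := mul_le_mul_of_nonneg_right hδε hn2.le
  nlinarith

end Pool.Agent.Helper18.SF
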