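import Pool.Agent.Helper18.SF.Corr
import Pool.Agent.Helper18.SF.Twin1

set_option autoImplicit false

/-! Triangles and degrees. -/

namespace Pool.Agent.Helper18.SF

open Finset

variable {V : Type} [Fintype V] [DecidableEq V]

/-- correlation of the rows `v` and `u` after averaging -/
private noncomputable def gam (A : V → V → ℝ) (Z : Finset V) (v u : V) : ℝ :=
  ∑ z, (A v z - ce (pat A Z) (A v) z) * (A u z - ce (pat A Z) (A u) z)

private lemma gam_semi (A : V → V → ℝ) (Z : Finset V) (v u : V) :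
    gam A Z v u = ∑ z, A v z * (A u z - ce (pat A Z) (A u) z) :=
  corr_semi A Z univ (fun _ _ _ => by simp) u v

private lemma gam_expand (A : V → V → ℝ) (Z : Finset V) (v u : V) :
    gam A Z v u = ∑ z, (A v z * A u z - ce (pat A Z) (A v) z * ce (pat A Z) (A u) z) :=
  corr_expand A Z univ (fun _ _ _ => by simp) u v

private lemma gam_sum (A : V → V → ℝ) (h01 : ∀ x y, A x y = 0 ∨ A x y = 1) (Z : Finset V)
    (θ : ℝ) (hθ : 0 ≤ θ)
    (h0 : ∀ u, q A (insert u Z) - q A Z ≤ θ * (Fintype.card V : ℝ) ^ 2) :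
    ∑ v, ∑ u, |gam A Z v u| ≤ Real.sqrt θ * (Fintype.card V : ℝ) ^ 3 := by
  set n : ℝ := (Fintype.card V : ℝ) with hn
  have hn0 : 0 ≤ n := Nat.cast_nonneg _
  have h := Finset.sum_sq_le_sum_mul_sum_of_sq_le_mul (univ : Finset (V × V))
    (r := fun p => |gam A Z p.1 p.2|) (f := fun _ => (1 : ℝ))
    (g := fun p => gam A Z p.1 p.2 ^ 2)
    (fun p _ => zero_le_one) (fun p _ => sq_nonneg _)
    (fun p _ => le_of_eq (by
      show |gam A Z p.1 p.2| ^ 2 = 1 * gam A Z p.1 p.2 ^ 2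
      rw [sq_abs, one_mul]))
  simp only [Fintype.sum_prod_type] at h
  have h2 : ∑ v, ∑ u, gam A Z v u ^ 2 ≤ θ * n ^ 4 := by
    rw [Finset.sum_comm]
    calc ∑ u, ∑ v, gam A Z v u ^ 2 ≤ ∑ _u : V, n * (θ * n ^ 2) :=
          Finset.sum_le_sum (fun u _ => by
            have h3 := corr A h01 Z univ (fun _ _ _ => by simp) u
            refine h3.trans ?_
            rw [Finset.card_univ]
            exact mul_le_mul_of_nonneg_left (h0 u) hn0)
      _ = θ * n ^ 4 := by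
          rw [Finset.sum_const, nsmul_eq_mul, Finset.card_univ]
          ring
  refine abs_le_of_sq_le_sq' ?_ (by positivity) |>.2
  calc (∑ v, ∑ u, |gam A Z v u|) ^ 2
      ≤ (∑ _v : V, ∑ _u : V, (1 : ℝ)) * ∑ v, ∑ u, gam A Z v u ^ 2 := h
    _ ≤ n ^ 2 * (θ * n ^ 4) := by
        have : (∑ _v : V, ∑ _u : V, (1 : ℝ)) = n ^ 2 := by
          simp [hn, sq]
        rw [this]
        exact mul_le_mul_of_nonneg_left h2 (by positivity)
    _ = (Real.sqrt θ) ^ 2 * (n ^ 3) ^ 2 := by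
        rw [Real.sq_sqrt hθ]
        ring
    _ = (Real.sqrt θ * n ^ 3) ^ 2 := by ring

/-- Triangles against the averaged kernel. -/
theorem tri_compare (S : Sys V) (Z : Finset V) (θ : ℝ) (hθ : 0 ≤ θ)
    (h0 : ∀ u, q S.A (insert u Z) - q S.A Z ≤ θ * (Fintype.card V : ℝ) ^ 2) :
    ∑ x, ∑ x', S.A x x' * ∑ y, w S.A Z x y * w S.A Z x' y ≤
      ∑ x, ∑ x', S.A x x' * ∑ y, S.A y x * S.A y x' +
        2 * Real.sqrt θ * (Fintype.card V : ℝ) ^ 3 := by
  have hg := gam_sum S.A S.h01 Z θ hθ h0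
  have e1 : ∑ x, ∑ x', S.A x x' * ∑ y, (S.A y x - w S.A Z x y) * S.A y x' =
      ∑ x', ∑ y, S.A y x' * gam S.A Z x' y := by
    simp only [gam_semi, Finset.mul_sum]
    rw [Finset.sum_comm]
    refine Finset.sum_congr rfl (fun x' _ => ?_)
    rw [Finset.sum_comm]
    refine Finset.sum_congr rfl (fun y _ => ?_)
    refine Finset.sum_congr rfl (fun x _ => ?_)
    rw [S.symm x x']
    unfold w
    ring
  have e2 : ∑ x, ∑ x', S.A x x' * ∑ y, w S.A Z x y * (S.A y x' - w S.A Z x' y) =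
      ∑ x, ∑ y, w S.A Z x y * gam S.A Z x y := by
    simp only [gam_semi, Finset.mul_sum]
    refine Finset.sum_congr rfl (fun x _ => ?_)
    rw [Finset.sum_comm]
    refine Finset.sum_congr rfl (fun y _ => ?_)
    refine Finset.sum_congr rfl (fun x' _ => ?_)
    unfold w
    ring
  have e3 : ∑ x, ∑ x', S.A x x' * ∑ y, w S.A Z x y * w S.A Z x' y =
      ∑ x, ∑ x', S.A x x' * ∑ y, S.A y x * S.A y x' -
        ∑ x, ∑ x', S.A x x' * ∑ y, (S.A y x - w S.A Z x y) * S.A y x' -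
        ∑ x, ∑ x', S.A x x' * ∑ y, w S.A Z x y * (S.A y x' - w S.A Z x' y) := by
    rw [← Finset.sum_sub_distrib, ← Finset.sum_sub_distrib]
    refine Finset.sum_congr rfl (fun x _ => ?_)
    rw [← Finset.sum_sub_distrib, ← Finset.sum_sub_distrib]
    refine Finset.sum_congr rfl (fun x' _ => ?_)
    rw [← mul_sub, ← mul_sub, ← Finset.sum_sub_distrib, ← Finset.sum_sub_distrib]
    congr 1
    exact Finset.sum_congr rfl (fun y _ => by ring)
  have b1 : -(∑ x', ∑ y, S.A y x' * gam S.A Z x' y) ≤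
      Real.sqrt θ * (Fintype.card V : ℝ) ^ 3 := by
    refine le_trans ?_ hg
    rw [← Finset.sum_neg_distrib]
    refine Finset.sum_le_sum (fun x' _ => ?_)
    rw [← Finset.sum_neg_distrib]
    refine Finset.sum_le_sum (fun y _ => ?_)
    refine (neg_le_abs _).trans ?_
    rw [abs_mul, abs_of_nonneg (S.A_nonneg y x')]
    exact mul_le_of_le_one_left (abs_nonneg _) (S.A_le_one y x')
  have b2 : -(∑ x, ∑ y, w S.A Z x y * gam S.A Z x y) ≤
      Real.sqrt θ * (Fintype.card V : ℝ) ^ 3 := by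
    refine le_trans ?_ hg
    rw [← Finset.sum_neg_distrib]
    refine Finset.sum_le_sum (fun x _ => ?_)
    rw [← Finset.sum_neg_distrib]
    refine Finset.sum_le_sum (fun y _ => ?_)
    refine (neg_le_abs _).trans ?_
    have w0 : 0 ≤ w S.A Z x y := ce_nonneg _ _ (S.A_nonneg y) x
    have w1 : w S.A Z x y ≤ 1 := ce_le_one _ _ (S.A_le_one y) x
    rw [abs_mul, abs_of_nonneg w0]
    exact mul_le_of_le_one_left (abs_nonneg _) w1
  rw [e3, e1, e2]
  linarith

/-- Degrees against averaged degrees. -/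
theorem deg_compare (S : Sys V) (Z : Finset V) (θ : ℝ) (hθ : 0 ≤ θ)
    (h0 : ∀ u, q S.A (insert u Z) - q S.A Z ≤ θ * (Fintype.card V : ℝ) ^ 2) :
    ∑ x, (∑ y, S.A x y) ^ 2 ≤ ∑ x, (∑ y, w S.A Z x y) ^ 2 +
        Real.sqrt θ * (Fintype.card V : ℝ) ^ 3 := by
  have hg := gam_sum S.A S.h01 Z θ hθ h0
  have e1 : ∑ v, ∑ u, gam S.A Z v u =
      ∑ x, (∑ y, S.A x y) ^ 2 - ∑ x, (∑ y, w S.A Z x y) ^ 2 := by
    rw [← Finset.sum_sub_distrib]
    have : ∀ x, (∑ y, S.A x y) ^ 2 - (∑ y, w S.A Z x y) ^ 2 =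
        ∑ v, ∑ u, (S.A v x * S.A u x - w S.A Z x v * w S.A Z x u) := by
      intro x
      simp only [Finset.sum_sub_distrib]
      rw [sq, sq, Finset.sum_mul_sum, Finset.sum_mul_sum]
      congr 1
      refine Finset.sum_congr rfl (fun v _ => Finset.sum_congr rfl (fun u _ => ?_))
      rw [S.symm x v, S.symm x u]
    simp only [this, gam_expand]
    rw [Finset.sum_comm]
    conv_rhs => rw [Finset.sum_comm]
    rw [Finset.sum_comm]
    refine Finset.sum_congr rfl (fun v _ => ?_)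
    rw [Finset.sum_comm]
    rfl
  have b1 : ∑ v, ∑ u, gam S.A Z v u ≤ ∑ v, ∑ u, |gam S.A Z v u| :=
    Finset.sum_le_sum (fun v _ => Finset.sum_le_sum (fun u _ => le_abs_self _))
  linarith

end Pool.Agent.Helper18.SF
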