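import Pool.Agent.Helper18.SF.Twin3
import Pool.Agent.Helper18.SF.Tri
import Pool.Agent.Helper18.SF.Expl

set_option autoImplicit false

/-! The bound for systems. -/

namespace Pool.Agent.Helper18.SF

open Finset

section
variable {V : Type} [Fintype V] [DecidableEq V]

theorem w_congr (A : V → V → ℝ) (Z : Finset V) {x x' : V} (h : pat A Z x = pat A Z x') (y : V) :
    w A Z x y = w A Z x' y := ce_congr h

/-- Degrees may be replaced by averaged degrees against cell-constant functions. -/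
theorem sum_deg_mul (S : Sys V) (Z : Finset V) (h : V → ℝ)
    (hh : ∀ z z', pat S.A Z z = pat S.A Z z' → h z = h z') :
    ∑ x, (∑ y, S.A x y) * h x = ∑ x, (∑ y, w S.A Z x y) * h x := by
  have h1 : ∀ y, ∑ x, ce (pat S.A Z) (S.A y) x * h x = ∑ x, S.A y x * h x :=
    fun y => sum_ce_mul (pat S.A Z) (S.A y) h hh
  calc ∑ x, (∑ y, S.A x y) * h x = ∑ x, ∑ y, S.A y x * h x := by
        refine Finset.sum_congr rfl (fun x _ => ?_)
        rw [Finset.sum_mul]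
        exact Finset.sum_congr rfl (fun y _ => by rw [S.symm x y])
    _ = ∑ y, ∑ x, S.A y x * h x := Finset.sum_comm
    _ = ∑ y, ∑ x, ce (pat S.A Z) (S.A y) x * h x := by
        exact Finset.sum_congr rfl (fun y _ => (h1 y).symm)
    _ = ∑ x, ∑ y, ce (pat S.A Z) (S.A y) x * h x := Finset.sum_comm
    _ = ∑ x, (∑ y, w S.A Z x y) * h x := by
        refine Finset.sum_congr rfl (fun x _ => ?_)
        rw [Finset.sum_mul]
        rfl

end

/-- Final arithmetic. -/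
theorem arith (m n D δ : ℝ) (hn : 0 < n) (hδ : 0 < δ) (hm : 0 ≤ m) (hD : m ^ 2 ≤ n * D)
    (h : 9 * D ^ 2 ≤ m * n * (3 * D + δ * n ^ 3)) : m ≤ (1 / 3 + δ) * n ^ 2 := by
  by_contra hc
  push Not at hc
  have hn2 : 0 < n ^ 2 := by positivity
  have hmp : 0 < m := lt_of_le_of_lt (by positivity) hc
  have hm3 : n ^ 2 / 3 < m := by nlinarith
  have hD1 : n ^ 3 / 9 < D := by
    have h1 : (n ^ 2 / 3) ^ 2 < m ^ 2 := by
      apply pow_lt_pow_left₀ hm3 (by positivity) (by norm_num)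
    have h2 : (n ^ 2 / 3) ^ 2 < n * D := lt_of_lt_of_le h1 hD
    have h3 : n * (n ^ 3 / 9) < n * D := by
      calc n * (n ^ 3 / 9) = (n ^ 2 / 3) ^ 2 := by ring
        _ < n * D := h2
    exact lt_of_mul_lt_mul_left h3 hn.le
  have hDp : 0 < D := lt_trans (by positivity) hD1
  have h4 : 3 * D + δ * n ^ 3 ≤ (3 + 9 * δ) * D := by nlinarith
  have h5 : 9 * D ^ 2 ≤ m * n * ((3 + 9 * δ) * D) :=
    le_trans h (mul_le_mul_of_nonneg_left h4 (by positivity))
  have h6 : 9 * D ≤ m * n * (3 + 9 * δ) := by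
    have : (9 * D) * D ≤ (m * n * (3 + 9 * δ)) * D := by nlinarith
    exact le_of_mul_le_mul_right this hDp
  have h7 : 9 * m ^ 2 ≤ n * (m * n * (3 + 9 * δ)) := by nlinarith
  have h8 : m * (9 * m) ≤ m * (n ^ 2 * (3 + 9 * δ)) := by nlinarith
  have h9 : 9 * m ≤ n ^ 2 * (3 + 9 * δ) := le_of_mul_le_mul_left h8 hmp
  nlinarith

theorem main_sys (ε : ℝ) (hε : 0 < ε) : ∃ N : ℕ, ∀ (V : Type) [Fintype V] [DecidableEq V],
    N ≤ Fintype.card V → ∀ S : Sys V,
      ∑ x, ∑ y, S.A x y ≤ (1 / 3 + ε) * (Fintype.card V : ℝ) ^ 2 := by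
  set δ : ℝ := min ε 1 with hδdef
  have hδ : 0 < δ := lt_min hε one_pos
  have hδ1 : δ ≤ 1 := min_le_right _ _
  have hδε : δ ≤ ε := min_le_left _ _
  set κ : ℝ := δ / 60 with hκdef
  have hκ : 0 < κ := by positivity
  set r : ℕ → ℝ := fun k => κ * δ / (60 * 2 ^ k) with hr
  have hrpos : ∀ k, 0 < r k := fun k => by simp only [hr]; positivity
  obtain ⟨M, hM⟩ := two_scale ((κ * δ / 120) ^ 2) (by positivity) (fun k => (r k) ^ 2)
    (fun k => pow_pos (hrpos k) 2)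
  obtain ⟨N, hN⟩ := exists_nat_gt ((3 * 2 ^ M + 12) / δ)
  refine ⟨N + 1, ?_⟩
  intro V _ _ hcard S
  set n : ℝ := (Fintype.card V : ℝ) with hn
  have hnN : (N : ℝ) + 1 ≤ n := by
    rw [hn]
    exact_mod_cast hcard
  have hn1 : 1 ≤ n := by
    have : (0 : ℝ) ≤ N := Nat.cast_nonneg _
    linarith
  have hnpos : 0 < n := by linarith
  have hnbig : 3 * 2 ^ M + 12 ≤ δ * n := by
    have h1 : (3 * 2 ^ M + 12) / δ < n := by linarith
    rw [div_lt_iff₀ hδ] at h1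
    linarith
  obtain ⟨Z, Z', hZZ, hZM, h0, h1, h2⟩ := hM V S.A S.h01
  have hs1 : Real.sqrt ((κ * δ / 120) ^ 2) = κ * δ / 120 := Real.sqrt_sq (by positivity)
  have hs2 : ∀ k, Real.sqrt ((r k) ^ 2) = r k := fun k => Real.sqrt_sq (hrpos k).le
  have hX := dev_bound S Z Z' hZZ ((κ * δ / 120) ^ 2) ((r Z.card) ^ 2) (by positivity)
    (by positivity) h1 h2
  rw [hs1, hs2] at hX
  have hX2 : (2 ^ Z.card * r Z.card + 2 * (κ * δ / 120)) * (Fintype.card V : ℝ) ^ 2 =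
      κ * δ / 30 * n ^ 2 := by
    have : (2 : ℝ) ^ Z.card * r Z.card = κ * δ / 60 := by
      simp only [hr]
      have : (2 : ℝ) ^ Z.card ≠ 0 := by positivity
      field_simp
    rw [this, ← hn]
    ring
  rw [hX2] at hX
  set db : V → ℝ := fun x => ∑ y, w S.A Z x y with hdb
  have hdb0 : ∀ x, 0 ≤ db x := fun x => Finset.sum_nonneg (fun y _ => w_nonneg S Z x y)
  have hdb1 : ∀ x, db x ≤ n := fun x => by
    calc db x ≤ ∑ _y : V, (1 : ℝ) := Finset.sum_le_sum (fun y _ => w_le_one S Z x y)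
      _ = n := by simp [hn]
  have hdbc : ∀ z z', pat S.A Z z = pat S.A Z z' → db z = db z' := fun z z' h => by
    simp only [hdb]
    exact Finset.sum_congr rfl (fun y _ => w_congr S.A Z h y)
  have hE := twin S Z κ (κ * δ / 30 * n ^ 2) hκ hX db hdb0 n hnpos.le hdb1 hdbc
  have hT := tri_compare S Z ((r 0) ^ 2) (by positivity) h0
  have hD := deg_compare S Z ((r 0) ^ 2) (by positivity) h0
  rw [hs2] at hT hD
  have key := explicit S Z _ _ _ hE hT hD
  have hm0 : 0 ≤ ∑ x, ∑ y, S.A x y :=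
    Finset.sum_nonneg (fun x _ => Finset.sum_nonneg (fun y _ => S.A_nonneg x y))
  have hmn : ∑ x, ∑ y, S.A x y ≤ n ^ 2 := by
    calc ∑ x, ∑ y, S.A x y ≤ ∑ _x : V, ∑ _y : V, (1 : ℝ) :=
          Finset.sum_le_sum (fun x _ => Finset.sum_le_sum (fun y _ => S.A_le_one x y))
      _ = n ^ 2 := by simp [hn, sq]
  have hCS : (∑ x, ∑ y, S.A x y) ^ 2 ≤ n * ∑ x, (∑ y, w S.A Z x y) ^ 2 := by
    have h3 : ∑ x, ∑ y, S.A x y = ∑ x, db x := by
      have := sum_deg_mul S Z (fun _ => 1) (fun _ _ _ => rfl)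
      simpa using this
    have h4 := sq_sum_le_card_mul_sum_sq (s := (univ : Finset V)) (f := db)
    rw [Finset.card_univ, ← h3] at h4
    exact h4
  have hr0 : r 0 = κ * δ / 60 := by simp [hr]
  have h2M : (2 : ℝ) ^ Z.card ≤ 2 ^ M := pow_le_pow_right₀ (by norm_num) hZM
  have hfin : 3 * (n * (n * 2 ^ Z.card / 2 + κ * n ^ 2 + κ * δ / 30 * n ^ 2 / κ)) +
      6 * (2 * r 0 * n ^ 3) + (3 / 2) * (r 0 * n ^ 3) + 6 * ∑ x, ∑ y, S.A x y ≤ δ * n ^ 3 := by
    have e1 : κ * δ / 30 * n ^ 2 / κ = δ / 30 * n ^ 2 := by field_simp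
    rw [e1, hr0]
    have hn3 : 0 < n ^ 3 := by positivity
    have hn2 : 0 < n ^ 2 := by positivity
    have e2 : n * (n * 2 ^ Z.card / 2) ≤ n ^ 2 * (2 ^ M / 2) := by nlinarith
    have e3 : 3 * (n ^ 2 * (2 ^ M / 2)) + 6 * n ^ 2 ≤ δ * n ^ 3 / 2 := by nlinarith
    have e4 : κ * δ / 60 ≤ δ / 3600 := by
      rw [hκdef]
      nlinarith
    have e5 : κ * δ / 60 * n ^ 3 ≤ δ / 3600 * n ^ 3 := mul_le_mul_of_nonneg_right e4 hn3.le
    have e6 : κ * n ^ 2 * n = δ / 60 * n ^ 3 := by rw [hκdef]; ring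
    nlinarith
  have hmain : ∑ x, ∑ y, S.A x y ≤ (1 / 3 + δ) * n ^ 2 := by
    refine arith _ n (∑ x, (∑ y, w S.A Z x y) ^ 2) δ hnpos hδ hm0 hCS ?_
    refine le_trans key ?_
    refine mul_le_mul_of_nonneg_left ?_ (by positivity)
    linarith
  calc ∑ x, ∑ y, S.A x y ≤ (1 / 3 + δ) * n ^ 2 := hmain
    _ ≤ (1 / 3 + ε) * n ^ 2 := by
      have : 0 ≤ n ^ 2 := by positivity
      nlinarith

end Pool.Agent.Helper18.SF
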