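import Pool.Agent.Helper18.SF.Main
import Pool.Agent.Helper18.SF.Comb

set_option autoImplicit false

/-! The bound for 3-graphs. -/

namespace Pool.Agent.Helper18.SF

open Finset

theorem bound (ε : ℝ) (hε : 0 < ε) : ∃ N : ℕ, ∀ n : ℕ, N ≤ n →
    ∀ H : Finset (Finset (Fin n)),
      (∀ e ∈ H, e.card = 3) →
      (∀ W : Finset (Fin n), W.card = 7 → (H.filter (fun e => e ⊆ W)).card < 4) →
      (H.card : ℝ) ≤ (1 / 18 + ε) * (n : ℝ) ^ 2 := by
  obtain ⟨N, hN⟩ := main_sys ε hε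
  obtain ⟨K, hK⟩ := exists_nat_gt (2 / ε)
  refine ⟨max N (max K 7), ?_⟩
  intro n hn H h3 h7
  have hn1 : N ≤ n := le_trans (le_max_left _ _) hn
  have hn2 : K ≤ n := le_trans (le_trans (le_max_left _ _) (le_max_right _ _)) hn
  have hn3 : 7 ≤ n := le_trans (le_trans (le_max_right _ _) (le_max_right _ _)) hn
  have h7' : ∀ W : Finset (Fin n), W.card ≤ 7 → (H.filter (fun e => e ⊆ W)).card ≤ 3 := by
    intro W hW
    obtain ⟨U, hWU, hU⟩ := Finset.exists_superset_card_eq hW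
      (by rw [Fintype.card_fin]; exact hn3)
    have h1 := h7 U hU
    have h2 : H.filter (fun e => e ⊆ W) ⊆ H.filter (fun e => e ⊆ U) := by
      intro e he
      rw [mem_filter] at he ⊢
      exact ⟨he.1, he.2.trans hWU⟩
    have := card_le_card h2
    omega
  obtain ⟨S, hS⟩ := exists_sys H h3 h7'
  have h := hN (Fin n) (by rw [Fintype.card_fin]; exact hn1) S
  rw [Fintype.card_fin] at h hS
  have hnK : 2 / ε < n := lt_of_lt_of_le hK (by exact_mod_cast hn2)
  have hnpos : (0 : ℝ) < n := lt_trans (by positivity) hnK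
  have h5 : 2 < ε * n := by
    rw [div_lt_iff₀ hε] at hnK
    linarith
  have h6 : 6 * (n : ℝ) ≤ 3 * (ε * (n : ℝ) ^ 2) := by nlinarith
  have h8 : 0 ≤ ε * (n : ℝ) ^ 2 := by positivity
  nlinarith

end Pool.Agent.Helper18.SF
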