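import Pool.Agent.Helper18.SF.CE

set_option autoImplicit false

/-! Two nested partitions by adjacency patterns. -/

namespace Pool.Agent.Helper18.SF

open Finset

theorem pat_refine {V : Type} [Fintype V] [DecidableEq V] (A : V → V → ℝ) {Z Z' : Finset V}
    (h : Z ⊆ Z') (z z' : V) (hz : pat A Z' z = pat A Z' z') : pat A Z z = pat A Z z' := by
  classical
  ext u
  have h1 : (u ∈ pat A Z' z) ↔ (u ∈ pat A Z' z') := by rw [hz]
  simp only [pat, mem_filter] at h1 ⊢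
  constructor
  · rintro ⟨hu, hA⟩
    exact ⟨hu, (h1.1 ⟨h hu, hA⟩).2⟩
  · rintro ⟨hu, hA⟩
    exact ⟨hu, (h1.2 ⟨h hu, hA⟩).2⟩

theorem card_pat_le {V : Type} [Fintype V] [DecidableEq V] (A : V → V → ℝ) (Z : Finset V) :
    ((univ.image (pat A Z)).card : ℝ) ≤ 2 ^ Z.card := by
  classical
  have h1 : univ.image (pat A Z) ⊆ Z.powerset := by
    intro P hP
    obtain ⟨z, -, rfl⟩ := mem_image.1 hP
    rw [mem_powerset]
    exact filter_subset _ _
  have h2 := card_le_card h1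
  rw [card_powerset] at h2
  exact_mod_cast h2

theorem q_sub {V : Type} [Fintype V] [DecidableEq V] (A : V → V → ℝ) {Z Z' : Finset V}
    (h : Z ⊆ Z') : q A Z' - q A Z =
      ∑ v, ∑ z, (ce (pat A Z') (A v) z - ce (pat A Z) (A v) z) ^ 2 := by
  unfold q
  rw [← sum_sub_distrib]
  exact sum_congr rfl fun v _ => (pyth (pat A Z) (pat A Z') (pat_refine A h) (A v)).symm

theorem q_mono {V : Type} [Fintype V] [DecidableEq V] (A : V → V → ℝ) {Z Z' : Finset V}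
    (h : Z ⊆ Z') : q A Z ≤ q A Z' := by
  have h1 : 0 ≤ q A Z' - q A Z := by
    rw [q_sub A h]
    exact sum_nonneg fun v _ => sum_nonneg fun z _ => sq_nonneg _
  linarith

theorem q_nonneg {V : Type} [Fintype V] [DecidableEq V] (A : V → V → ℝ) (Z : Finset V) :
    0 ≤ q A Z := sum_nonneg fun _ _ => sum_nonneg fun _ _ => sq_nonneg _

theorem q_le {V : Type} [Fintype V] [DecidableEq V] (A : V → V → ℝ)
    (h01 : ∀ x y, A x y = 0 ∨ A x y = 1) (Z : Finset V) :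
    q A Z ≤ (Fintype.card V : ℝ) ^ 2 := by
  unfold q
  calc ∑ v, ∑ z, (ce (pat A Z) (A v) z) ^ 2 ≤ ∑ _v : V, ∑ _z : V, (1 : ℝ) := by
        refine sum_le_sum fun v _ => sum_le_sum fun z _ => ?_
        have h1 := ce_nonneg (pat A Z) (A v) (fun z => by rcases h01 v z with h | h <;> rw [h] <;> norm_num) z
        have h2 := ce_le_one (pat A Z) (A v) (fun z => by rcases h01 v z with h | h <;> rw [h] <;> norm_num) z
        nlinarith
    _ = (Fintype.card V : ℝ) ^ 2 := by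
        simp only [sum_const, card_univ, nsmul_eq_mul, mul_one]
        ring

/-- greedy extension: a bounded number of further points makes the energy stable -/
theorem greedy {V : Type} [DecidableEq V] (F : Finset V → ℝ) (M : ℝ) (hF0 : ∀ Z, 0 ≤ F Z)
    (hF1 : ∀ Z, F Z ≤ M) {θ : ℝ} (hθ : 0 < θ) (Z : Finset V) :
    ∃ Z', Z ⊆ Z' ∧ Z'.card ≤ Z.card + (⌊1 / θ⌋₊ + 1) ∧
      ∀ u, F (insert u Z') - F Z' ≤ θ * M := by
  have hM : 0 ≤ M := (hF0 Z).trans (hF1 Z)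
  by_contra hcon
  push Not at hcon
  have key : ∀ k : ℕ, k ≤ ⌊1 / θ⌋₊ + 1 → ∃ Z', Z ⊆ Z' ∧ Z'.card ≤ Z.card + k ∧
      F Z + k * (θ * M) ≤ F Z' ∧ (0 < k → F Z + k * (θ * M) < F Z') := by
    intro k
    induction k with
    | zero => intro _; exact ⟨Z, Subset.refl _, by simp, by simp, by simp⟩
    | succ k ih =>
      intro hk
      obtain ⟨Z', h1, h2, h3, h4⟩ := ih (by omega)
      obtain ⟨u, hu⟩ := hcon Z' h1 (by omega)
      refine ⟨insert u Z', h1.trans (subset_insert _ _), ?_, ?_, ?_⟩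
      · have := card_insert_le u Z'
        omega
      · push_cast; nlinarith
      · intro _; push_cast; nlinarith
  obtain ⟨Z', h1, h2, h3, h4⟩ := key (⌊1 / θ⌋₊ + 1) le_rfl
  have h5 := h4 (by omega)
  have h6 : (1 / θ) < ((⌊1 / θ⌋₊ + 1 : ℕ) : ℝ) := by
    push_cast; exact Nat.lt_floor_add_one _
  have h7 : 1 ≤ ((⌊1 / θ⌋₊ + 1 : ℕ) : ℝ) * θ := by
    rw [div_lt_iff₀ hθ] at h6; linarith
  have h8 : M ≤ ((⌊1 / θ⌋₊ + 1 : ℕ) : ℝ) * (θ * M) := by
    rw [← mul_assoc]; nlinarith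
  have := hF0 Z
  have := hF1 Z'
  linarith

/-- sizes of the successive stages -/
noncomputable def stg (θ : ℕ → ℝ) : ℕ → ℕ
  | 0 => ⌊1 / θ 0⌋₊ + 1
  | i + 1 => stg θ i + (⌊1 / θ (stg θ i)⌋₊ + 1)

/-- two-scale pigeonhole for a bounded set function, with antitone precision -/
theorem two_scale_aux {V : Type} [DecidableEq V] (θ : ℕ → ℝ) (hθ : ∀ s, 0 < θ s)
    (hanti : Antitone θ) {ε : ℝ} (hε : 0 < ε)
    (F : Finset V → ℝ) (M : ℝ) (hF0 : ∀ Z, 0 ≤ F Z) (hF1 : ∀ Z, F Z ≤ M) :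
    ∃ Z Z' : Finset V, Z ⊆ Z' ∧ Z'.card ≤ stg θ (⌊1 / ε⌋₊ + 1) ∧
      (∀ u, F (insert u Z) - F Z ≤ θ 0 * M) ∧ F Z' - F Z ≤ ε * M ∧
      ∀ u, F (insert u Z') - F Z' ≤ θ Z.card * M := by
  have hM : 0 ≤ M := (hF0 ∅).trans (hF1 ∅)
  have step : ∀ Z : Finset V, ∃ Z', Z ⊆ Z' ∧ Z'.card ≤ Z.card + (⌊1 / θ Z.card⌋₊ + 1) ∧
      ∀ u, F (insert u Z') - F Z' ≤ θ Z.card * M := fun Z => greedy F M hF0 hF1 (hθ _) Z
  choose nx hnx1 hnx2 hnx3 using step
  let W : ℕ → Finset V := fun i => Nat.rec (nx ∅) (fun _ Z => nx Z) i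
  have hW0 : W 0 = nx ∅ := rfl
  have hWs : ∀ i, W (i + 1) = nx (W i) := fun i => rfl
  have mono_size : ∀ s t : ℕ, s ≤ t → s + (⌊1 / θ s⌋₊ + 1) ≤ t + (⌊1 / θ t⌋₊ + 1) := by
    intro s t hst
    have : ⌊1 / θ s⌋₊ ≤ ⌊1 / θ t⌋₊ := by
      apply Nat.floor_mono
      exact one_div_le_one_div_of_le (hθ t) (hanti hst)
    omega
  have hcard : ∀ i, (W i).card ≤ stg θ i := by
    intro i
    induction i with
    | zero =>
      have := hnx2 ∅
      rw [hW0]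
      simpa [stg] using this
    | succ i ih =>
      rw [hWs]
      exact (hnx2 (W i)).trans (mono_size _ _ ih)
  have hstable : ∀ i u, F (insert u (W i)) - F (W i) ≤ θ 0 * M := by
    intro i u
    rcases i with _ | i
    · rw [hW0]
      simpa using hnx3 ∅ u
    · rw [hWs]
      refine (hnx3 (W i) u).trans ?_
      exact mul_le_mul_of_nonneg_right (hanti (Nat.zero_le _)) hM
  have hstg : Monotone (stg θ) := by
    apply monotone_nat_of_le_succ
    intro i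
    simp only [stg]
    omega
  by_cases hex : ∃ i, i ≤ ⌊1 / ε⌋₊ ∧ F (W (i + 1)) - F (W i) ≤ ε * M
  · obtain ⟨i, hi, h⟩ := hex
    refine ⟨W i, W (i + 1), ?_, ?_, hstable i, h, ?_⟩
    · rw [hWs]; exact hnx1 _
    · exact (hcard (i + 1)).trans (hstg (by omega))
    · rw [hWs]; exact hnx3 (W i)
  · push Not at hex
    exfalso
    have key : ∀ k : ℕ, k ≤ ⌊1 / ε⌋₊ + 1 → F (W 0) + k * (ε * M) ≤ F (W k) ∧
        (0 < k → F (W 0) + k * (ε * M) < F (W k)) := by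
      intro k
      induction k with
      | zero => intro _; simp
      | succ k ih =>
        intro hk
        have h1 := (ih (by omega)).1
        have h2 := hex k (by omega)
        constructor
        · push_cast; nlinarith
        · intro _; push_cast; nlinarith
    have h5 := (key _ le_rfl).2 (by omega)
    have h6 : (1 / ε) < ((⌊1 / ε⌋₊ + 1 : ℕ) : ℝ) := by
      push_cast; exact Nat.lt_floor_add_one _
    have h7 : 1 ≤ ((⌊1 / ε⌋₊ + 1 : ℕ) : ℝ) * ε := by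
      rw [div_lt_iff₀ hε] at h6; linarith
    have h8 : M ≤ ((⌊1 / ε⌋₊ + 1 : ℕ) : ℝ) * (ε * M) := by
      rw [← mul_assoc]; nlinarith
    have := hF0 (W 0)
    have := hF1 (W (⌊1 / ε⌋₊ + 1))
    linarith

/-- running minimum -/
noncomputable def rmin (θ : ℕ → ℝ) : ℕ → ℝ
  | 0 => θ 0
  | i + 1 => min (rmin θ i) (θ (i + 1))

theorem rmin_le (θ : ℕ → ℝ) : ∀ i, rmin θ i ≤ θ i
  | 0 => le_rfl
  | _ + 1 => min_le_right _ _

theorem rmin_pos (θ : ℕ → ℝ) (h : ∀ i, 0 < θ i) : ∀ i, 0 < rmin θ i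
  | 0 => h 0
  | i + 1 => lt_min (rmin_pos θ h i) (h (i + 1))

theorem rmin_anti (θ : ℕ → ℝ) : Antitone (rmin θ) :=
  antitone_nat_of_succ_le fun _ => min_le_left _ _

/-- Two scales: `Z` has bounded size, no vertex increases the energy of `Z` or of `Z'` much, the
bound for `Z'` may depend on the size of `Z`, and the energies of `Z` and `Z'` are close. -/
theorem two_scale (ε : ℝ) (hε : 0 < ε) (θ : ℕ → ℝ) (hθ : ∀ k, 0 < θ k) :
    ∃ M : ℕ, ∀ (V : Type) [Fintype V] [DecidableEq V] (A : V → V → ℝ),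
      (∀ x y, A x y = 0 ∨ A x y = 1) →
      ∃ Z Z' : Finset V, Z ⊆ Z' ∧ Z.card ≤ M ∧
        (∀ u, q A (insert u Z) - q A Z ≤ θ 0 * (Fintype.card V : ℝ) ^ 2) ∧
        (∀ u, q A (insert u Z') - q A Z' ≤ θ Z.card * (Fintype.card V : ℝ) ^ 2) ∧
        q A Z' - q A Z ≤ ε * (Fintype.card V : ℝ) ^ 2 := by
  refine ⟨stg (rmin θ) (⌊1 / ε⌋₊ + 1), ?_⟩
  intro V _ _ A h01
  obtain ⟨Z, Z', h1, h2, h3, h4, h5⟩ := two_scale_aux (rmin θ) (rmin_pos θ hθ) (rmin_anti θ) hε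
    (q A) ((Fintype.card V : ℝ) ^ 2) (q_nonneg A) (q_le A h01)
  refine ⟨Z, Z', h1, (card_le_card h1).trans h2, h3, fun u => (h5 u).trans ?_, h4⟩
  exact mul_le_mul_of_nonneg_right (rmin_le θ _) (sq_nonneg _)

end Pool.Agent.Helper18.SF
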